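import Mathlib

set_option autoImplicit false

open scoped commutatorElement

namespace Pool.Agent.W382

/-- A field of characteristic two with an automorphism `s` and an element `x` with
`s x = x (1 + x)`. -/
structure SD (E : Type) [Field E] where
  s : E ≃+* E
  x : E
  x_ne : x ≠ 0
  x1_ne : 1 + x ≠ 0
  two : (2 : E) = 0
  s_x : s x = x * (1 + x)

namespace SD

variable {E : Type} [Field E] (D : SD E)

include D in
lemma two_E (f : E) : f + f = 0 := by
  rw [← two_mul, D.two, zero_mul]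

def tauP (_ : SD E) : Equiv.Perm E := Equiv.addLeft (1 : E)
def wP : Equiv.Perm E := Equiv.mulLeft₀ (1 + D.x) D.x1_ne
def sP : Equiv.Perm E := Equiv.mulLeft₀ D.x D.x_ne
def gP : Equiv.Perm E := D.s.toEquiv
def hP : Equiv.Perm E := D.tauP * D.sP * D.gP

lemma tauP_apply (f : E) : D.tauP f = 1 + f := rfl
lemma wP_apply (f : E) : D.wP f = (1 + D.x) * f := rfl
lemma wP_inv_apply (f : E) : D.wP⁻¹ f = (1 + D.x)⁻¹ * f := rfl
lemma sP_apply (f : E) : D.sP f = D.x * f := rfl
lemma gP_apply (f : E) : D.gP f = D.s f := rfl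
lemma gP_inv_apply (f : E) : D.gP⁻¹ f = D.s.symm f := rfl
lemma hP_apply (f : E) : D.hP f = 1 + D.x * D.s f := rfl

/-- The group: generated by `f ↦ 1 + f`, `f ↦ (1 + X) f` and `sig`. -/
def Gam : Subgroup (Equiv.Perm E) := Subgroup.closure {D.tauP, D.wP, D.gP}

lemma tau_mem : D.tauP ∈ D.Gam := Subgroup.subset_closure (by simp)
lemma w_mem : D.wP ∈ D.Gam := Subgroup.subset_closure (by simp)
lemma g_mem : D.gP ∈ D.Gam := Subgroup.subset_closure (by simp)

lemma tau_sq : D.tauP * D.tauP = 1 := by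
  ext f
  simp only [Equiv.Perm.coe_mul, Function.comp_apply, tauP_apply, Equiv.Perm.coe_one, id_eq]
  rw [← add_assoc, D.two_E, zero_add]

lemma tau_inv : D.tauP⁻¹ = D.tauP := by
  rw [inv_eq_iff_mul_eq_one, tau_sq]

/-- `h τ h⁻¹ = w τ w⁻¹ τ`. -/
lemma rel1 : D.hP * D.tauP = (D.wP * D.tauP * D.wP⁻¹ * D.tauP) * D.hP := by
  ext f
  simp only [Equiv.Perm.coe_mul, Function.comp_apply, tauP_apply, wP_apply, hP_apply,
    wP_inv_apply, map_add, map_one]
  have := D.x1_ne
  have h2 := D.two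
  field_simp
  linear_combination (-1 : E) * h2

/-- `h w h⁻¹ = τ σ w σ⁻¹ τ`. -/
lemma rel2 : D.hP * D.wP = (D.tauP * D.gP * D.wP * D.gP⁻¹ * D.tauP) * D.hP := by
  ext f
  simp only [Equiv.Perm.coe_mul, Function.comp_apply, tauP_apply, wP_apply, hP_apply,
    gP_apply, gP_inv_apply, map_add, map_mul, map_one, RingEquiv.apply_symm_apply, s_x]
  have h2 := D.two
  linear_combination (-(1 + D.x + D.x ^ 2) : E) * h2

/-- `h σ h⁻¹ = τ w⁻¹ σ τ`. -/
lemma rel3 : D.hP * D.gP = (D.tauP * D.wP⁻¹ * D.gP * D.tauP) * D.hP := by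
  ext f
  simp only [Equiv.Perm.coe_mul, Function.comp_apply, tauP_apply, wP_inv_apply, hP_apply,
    gP_apply, map_add, map_mul, map_one, s_x]
  have := D.x1_ne
  have h2 := D.two
  field_simp
  linear_combination (-1 : E) * h2

lemma conj_mem {γ : Equiv.Perm E} (hγ : γ ∈ D.Gam) : D.hP * γ * D.hP⁻¹ ∈ D.Gam := by
  have hle : D.Gam ≤ D.Gam.comap (MulAut.conj D.hP).toMonoidHom := by
    conv_lhs => rw [Gam]
    rw [Subgroup.closure_le]
    rintro g hg
    simp only [Set.mem_insert_iff, Set.mem_singleton_iff] at hg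
    simp only [Subgroup.coe_comap, Set.mem_preimage, MulEquiv.coe_toMonoidHom, MulAut.conj_apply,
      SetLike.mem_coe]
    rcases hg with rfl | rfl | rfl
    · rw [rel1, mul_inv_cancel_right]
      exact mul_mem (mul_mem (mul_mem D.w_mem D.tau_mem) (inv_mem D.w_mem)) D.tau_mem
    · rw [rel2, mul_inv_cancel_right]
      exact mul_mem (mul_mem (mul_mem (mul_mem D.tau_mem D.g_mem) D.w_mem) (inv_mem D.g_mem))
        D.tau_mem
    · rw [rel3, mul_inv_cancel_right]
      exact mul_mem (mul_mem (mul_mem D.tau_mem (inv_mem D.w_mem)) D.g_mem) D.tau_mem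
  have := hle hγ
  simpa using this

/-- The injective endomorphism of `Gam`: conjugation by `h`. -/
def phi : D.Gam →* D.Gam :=
  ((MulAut.conj D.hP).toMonoidHom.comp D.Gam.subtype).codRestrict D.Gam (fun γ => by
    simpa using D.conj_mem γ.2)

lemma phi_coe (γ : D.Gam) : ((D.phi γ : D.Gam) : Equiv.Perm E) = D.hP * γ * D.hP⁻¹ := rfl

lemma phi_injective : Function.Injective D.phi := by
  intro a b hab
  have := congrArg (fun z : D.Gam => (z : Equiv.Perm E)) hab
  simp only [phi_coe] at this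
  ext1
  simpa using this

lemma phi_iterate (k : ℕ) (γ : D.Gam) :
    ((D.phi^[k] γ : D.Gam) : Equiv.Perm E) = D.hP ^ k * γ * (D.hP ^ k)⁻¹ := by
  induction k with
  | zero => simp
  | succ k ih =>
    rw [Function.iterate_succ_apply', phi_coe, ih, pow_succ']
    group

/-- `h⁻¹ τ w τ h = σ⁻¹ w σ`. -/
lemma rel4 : D.hP * (D.gP⁻¹ * D.wP * D.gP) = (D.tauP * D.wP * D.tauP) * D.hP := by
  ext f
  simp only [Equiv.Perm.coe_mul, Function.comp_apply, tauP_apply, wP_apply, hP_apply,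
    gP_apply, gP_inv_apply, map_add, map_mul, map_one, RingEquiv.apply_symm_apply]
  have h2 := D.two
  linear_combination (-(1 + D.x) : E) * h2

/-- `h⁻¹ w h = τ σ⁻¹ w σ`. -/
lemma rel5 : D.hP * (D.tauP * D.gP⁻¹ * D.wP * D.gP) = D.wP * D.hP := by
  ext f
  simp only [Equiv.Perm.coe_mul, Function.comp_apply, tauP_apply, wP_apply, hP_apply,
    gP_apply, gP_inv_apply, map_add, map_mul, map_one, RingEquiv.apply_symm_apply]
  ring

/-- `h⁻¹ σ h = σ⁻¹ w σ σ`. -/
lemma rel6 : D.hP * (D.gP⁻¹ * D.wP * D.gP * D.gP) = D.gP * D.hP := by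
  ext f
  simp only [Equiv.Perm.coe_mul, Function.comp_apply, wP_apply, hP_apply,
    gP_apply, gP_inv_apply, map_add, map_mul, map_one, RingEquiv.apply_symm_apply, s_x]
  ring

lemma rel7 : D.tauP * D.gP * D.tauP = D.gP := by
  ext f
  simp only [Equiv.Perm.coe_mul, Function.comp_apply, tauP_apply, gP_apply, map_add, map_one]
  rw [← add_assoc, D.two_E, zero_add]

/-- Membership of the image of `phi`. -/
lemma mem_range_iff (γ : D.Gam) :
    γ ∈ D.phi.range ↔ ∃ δ ∈ D.Gam, D.hP * δ = γ * D.hP := by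
  constructor
  · rintro ⟨δ, rfl⟩
    refine ⟨δ, δ.2, ?_⟩
    rw [phi_coe]; group
  · rintro ⟨δ, hδ, h⟩
    refine ⟨⟨δ, hδ⟩, ?_⟩
    ext1
    rw [phi_coe]
    simp only
    rw [h]; group

/-- The generators as elements of the group. -/
def tG : D.Gam := ⟨D.tauP, D.tau_mem⟩
def wG : D.Gam := ⟨D.wP, D.w_mem⟩
def gG : D.Gam := ⟨D.gP, D.g_mem⟩

lemma tG_sq : D.tG * D.tG = 1 := by
  ext1; exact D.tau_sq

lemma wG_mem : D.wG ∈ D.phi.range := by
  rw [mem_range_iff]
  exact ⟨D.tauP * D.gP⁻¹ * D.wP * D.gP,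
    mul_mem (mul_mem (mul_mem D.tau_mem (inv_mem D.g_mem)) D.w_mem) D.g_mem, D.rel5⟩

lemma twtG_mem : D.tG * D.wG * D.tG ∈ D.phi.range := by
  rw [mem_range_iff]
  exact ⟨D.gP⁻¹ * D.wP * D.gP, mul_mem (mul_mem (inv_mem D.g_mem) D.w_mem) D.g_mem, D.rel4⟩

lemma gG_mem : D.gG ∈ D.phi.range := by
  rw [mem_range_iff]
  exact ⟨D.gP⁻¹ * D.wP * D.gP * D.gP,
    mul_mem (mul_mem (mul_mem (inv_mem D.g_mem) D.w_mem) D.g_mem) D.g_mem, D.rel6⟩

lemma tgtG_mem : D.tG * D.gG * D.tG ∈ D.phi.range := by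
  have : D.tG * D.gG * D.tG = D.gG := by ext1; exact D.rel7
  rw [this]; exact D.gG_mem

lemma closure_top : Subgroup.closure {D.tG, D.wG, D.gG} = ⊤ := by
  have h := Subgroup.closure_closure_coe_preimage (k := ({D.tauP, D.wP, D.gP} : Set (Equiv.Perm E)))
  have h2 : (((↑) : D.Gam → Equiv.Perm E) ⁻¹' {D.tauP, D.wP, D.gP}) = {D.tG, D.wG, D.gG} := by
    ext γ
    simp only [Set.mem_preimage, Set.mem_insert_iff, Set.mem_singleton_iff, tG, wG, gG,
      Subtype.ext_iff]
  rw [← h2]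
  exact h

lemma index_aux (γ : D.Gam) : γ ∈ D.phi.range ∨ D.tG * γ ∈ D.phi.range := by
  have hmem : γ ∈ Subgroup.closure {D.tG, D.wG, D.gG} := by rw [closure_top]; trivial
  have hw := D.wG_mem
  have htw := D.twtG_mem
  have hg := D.gG_mem
  have htg := D.tgtG_mem
  have hwi : D.wG⁻¹ ∈ D.phi.range := inv_mem hw
  have hgi : D.gG⁻¹ ∈ D.phi.range := inv_mem hg
  have htinv : D.tG⁻¹ = D.tG := by rw [inv_eq_iff_mul_eq_one]; exact D.tG_sq
  have htwi : D.tG * D.wG⁻¹ * D.tG ∈ D.phi.range := by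
    have := inv_mem htw
    simpa [mul_assoc, htinv] using this
  have htgi : D.tG * D.gG⁻¹ * D.tG ∈ D.phi.range := by
    have := inv_mem htg
    simpa [mul_assoc, htinv] using this
  have step : ∀ g : D.Gam, g ∈ D.phi.range → D.tG * g * D.tG ∈ D.phi.range →
      ∀ δ : D.Gam, (δ ∈ D.phi.range ∨ D.tG * δ ∈ D.phi.range) →
      (g * δ ∈ D.phi.range ∨ D.tG * (g * δ) ∈ D.phi.range) := by
    intro g h1 h2 δ hδ
    rcases hδ with hδ | hδ
    · exact Or.inl (mul_mem h1 hδ)
    · right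
      have : D.tG * (g * δ) = (D.tG * g * D.tG) * (D.tG * δ) := by
        have := D.tG_sq
        calc D.tG * (g * δ) = D.tG * g * (D.tG * D.tG) * δ := by rw [this]; group
          _ = _ := by group
      rw [this]
      exact mul_mem h2 hδ
  have stept : ∀ δ : D.Gam, (δ ∈ D.phi.range ∨ D.tG * δ ∈ D.phi.range) →
      (D.tG * δ ∈ D.phi.range ∨ D.tG * (D.tG * δ) ∈ D.phi.range) := by
    intro δ hδ
    rcases hδ with hδ | hδ
    · right
      rw [← mul_assoc, D.tG_sq, one_mul]; exact hδ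
    · exact Or.inl hδ
  induction hmem using Subgroup.closure_induction_left with
  | one => exact Or.inl (one_mem _)
  | mul_left y hy δ _ ih =>
    simp only [Set.mem_insert_iff, Set.mem_singleton_iff] at hy
    rcases hy with rfl | rfl | rfl
    · exact stept δ ih
    · exact step _ hw htw δ ih
    · exact step _ hg htg δ ih
  | inv_mul_cancel y hy δ _ ih =>
    simp only [Set.mem_insert_iff, Set.mem_singleton_iff] at hy
    rcases hy with rfl | rfl | rfl
    · rw [htinv]; exact stept δ ih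
    · exact step _ hwi htwi δ ih
    · exact step _ hgi htgi δ ih

lemma finiteIndex : D.phi.range.FiniteIndex := by
  have : Finite (D.Gam ⧸ D.phi.range) := by
    have hsurj : Function.Surjective (fun b : Bool =>
        ((if b then (1 : D.Gam) else D.tG : D.Gam) : D.Gam ⧸ D.phi.range)) := by
      intro q
      obtain ⟨γ, rfl⟩ := QuotientGroup.mk_surjective q
      rcases D.index_aux γ with h | h
      · refine ⟨true, ?_⟩
        simp only [if_true]
        rw [QuotientGroup.eq]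
        simpa using h
      · refine ⟨false, ?_⟩
        simp only [Bool.false_eq_true, if_false]
        rw [QuotientGroup.eq]
        have htinv : D.tG⁻¹ = D.tG := by rw [inv_eq_iff_mul_eq_one]; exact D.tG_sq
        rw [htinv]
        exact h
    exact Finite.of_surjective _ hsurj
  exact Subgroup.finiteIndex_of_finite_quotient

/-- Translation by `a`. -/
def tr (_ : SD E) (a : E) : Equiv.Perm E := Equiv.addLeft a

lemma tr_apply (a f : E) : D.tr a f = a + f := rfl

lemma w_pow_apply (m : ℕ) (f : E) : (D.wP ^ m) f = (1 + D.x) ^ m * f := by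
  induction m generalizing f with
  | zero => simp
  | succ m ih =>
    rw [pow_succ, Equiv.Perm.mul_apply, ih, wP_apply, pow_succ]; ring

lemma w_pow_inv_apply (m : ℕ) (f : E) : ((D.wP ^ m)⁻¹) f = ((1 + D.x) ^ m)⁻¹ * f := by
  rw [Equiv.Perm.inv_eq_iff_eq, w_pow_apply]
  have := D.x1_ne
  field_simp

lemma comm_tr (m : ℕ) (a : E) :
    D.wP ^ m * D.tr a * (D.wP ^ m)⁻¹ * (D.tr a)⁻¹ = D.tr (((1 + D.x) ^ m - 1) * a) := by
  have hinv : (D.tr a)⁻¹ = D.tr (-a) := by
    rw [inv_eq_iff_mul_eq_one]; ext f; simp [tr_apply]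
  ext f
  rw [hinv]
  simp only [Equiv.Perm.coe_mul, Function.comp_apply, tr_apply, w_pow_apply, w_pow_inv_apply]
  have := D.x1_ne
  field_simp
  ring

lemma tr_w_pow_mem (m : ℕ) : D.tr ((1 + D.x) ^ m) ∈ D.Gam := by
  have : D.tr ((1 + D.x) ^ m) = D.wP ^ m * D.tauP * (D.wP ^ m)⁻¹ := by
    ext f
    simp only [Equiv.Perm.coe_mul, Function.comp_apply, tr_apply, w_pow_apply, w_pow_inv_apply,
      tauP_apply]
    have := D.x1_ne
    field_simp
  rw [this]
  exact mul_mem (mul_mem (pow_mem D.w_mem m) D.tau_mem) (inv_mem (pow_mem D.w_mem m))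

/-- If `1 + x` has infinite order, the group has no nilpotent subgroup of finite index. -/
lemma not_virtually_nilpotent (hx : ∀ m : ℕ, 0 < m → (1 + D.x) ^ m ≠ 1)
    (H : Subgroup D.Gam) (hH : H.FiniteIndex) (hn : Group.IsNilpotent H) : False := by
  -- a power of `w` in `H`
  obtain ⟨m, hm0, hm⟩ : ∃ m : ℕ, 0 < m ∧ D.wG ^ m ∈ H := by
    obtain ⟨m, hm, h⟩ := Subgroup.exists_pow_mem_of_index_ne_zero hH.index_ne_zero D.wG
    exact ⟨m, hm, h.2⟩
  -- a nontrivial translation in `H`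
  obtain ⟨a, ha0, haG, ha⟩ : ∃ a : E, a ≠ 0 ∧ ∃ haG : D.tr a ∈ D.Gam,
      (⟨D.tr a, haG⟩ : D.Gam) ∈ H := by
    have : Finite (D.Gam ⧸ H) := Subgroup.finite_quotient_of_finiteIndex
    obtain ⟨i, j, hij, heq⟩ := Finite.exists_ne_map_eq_of_infinite
      (fun i : ℕ => ((⟨D.tr ((1 + D.x) ^ i), D.tr_w_pow_mem i⟩ : D.Gam) : D.Gam ⧸ H))
    rw [QuotientGroup.eq] at heq
    have e : (D.tr ((1 + D.x) ^ i))⁻¹ * D.tr ((1 + D.x) ^ j)
        = D.tr ((1 + D.x) ^ j - (1 + D.x) ^ i) := by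
      rw [inv_mul_eq_iff_eq_mul]
      ext f
      simp only [Equiv.Perm.coe_mul, Function.comp_apply, tr_apply]
      ring
    refine ⟨(1 + D.x) ^ j - (1 + D.x) ^ i, ?_, ?_, ?_⟩
    · intro h0
      rw [sub_eq_zero] at h0
      rcases lt_or_gt_of_ne hij with h | h
      · obtain ⟨k, rfl⟩ := Nat.exists_eq_add_of_lt h
        apply hx (k + 1) (Nat.succ_pos k)
        have hne : (1 + D.x) ^ i ≠ 0 := pow_ne_zero _ D.x1_ne
        rw [add_assoc, pow_add] at h0
        exact mul_left_cancel₀ hne (by rw [h0, mul_one])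
      · obtain ⟨k, rfl⟩ := Nat.exists_eq_add_of_lt h
        apply hx (k + 1) (Nat.succ_pos k)
        have hne : (1 + D.x) ^ j ≠ 0 := pow_ne_zero _ D.x1_ne
        rw [add_assoc, pow_add] at h0
        exact mul_left_cancel₀ hne (by rw [← h0, mul_one])
    · rw [← e]
      exact mul_mem (inv_mem (D.tr_w_pow_mem i)) (D.tr_w_pow_mem j)
    · convert heq using 1
      ext1
      exact e.symm
  -- iterated commutators
  have key : ∀ k : ℕ, ∃ hG : D.tr (((1 + D.x) ^ m - 1) ^ k * a) ∈ D.Gam,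
      (⟨D.tr (((1 + D.x) ^ m - 1) ^ k * a), hG⟩ : D.Gam) ∈ H.lowerCentralSeries k := by
    intro k
    induction k with
    | zero =>
      have e : D.tr (((1 + D.x) ^ m - 1) ^ 0 * a) = D.tr a := by rw [pow_zero, one_mul]
      refine ⟨by rw [e]; exact haG, ?_⟩
      rw [Subgroup.lowerCentralSeries_zero]
      convert ha using 1
      ext1
      exact e
    | succ k ih =>
      obtain ⟨hG, hmem⟩ := ih
      have hc := Subgroup.commutator_mem_commutator hmem hm
      have hc' := inv_mem hc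
      rw [commutatorElement_inv] at hc'
      have e : ((⁅D.wG ^ m, (⟨D.tr (((1 + D.x) ^ m - 1) ^ k * a), hG⟩ : D.Gam)⁆ : D.Gam) :
          Equiv.Perm E) = D.tr (((1 + D.x) ^ m - 1) ^ (k + 1) * a) := by
        have := D.comm_tr m (((1 + D.x) ^ m - 1) ^ k * a)
        rw [← mul_assoc, ← pow_succ'] at this
        rw [← this]
        rfl
      refine ⟨by rw [← e]; exact Subtype.prop _, ?_⟩
      rw [Subgroup.lowerCentralSeries_succ]
      convert hc' using 1
      ext1
      exact e.symm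
  obtain ⟨k, hk⟩ := (Subgroup.isNilpotent_iff_lowerCentralSeries H).1 hn
  obtain ⟨hG, hmem⟩ := key k
  rw [hk, Subgroup.mem_bot] at hmem
  have h1 := congrArg (fun z : D.Gam => (z : Equiv.Perm E) 0) hmem
  simp only [tr_apply, add_zero, Subgroup.coe_one, Equiv.Perm.coe_one, id_eq] at h1
  rcases mul_eq_zero.1 h1 with h2 | h2
  · exact hx m hm0 (sub_eq_zero.1 (pow_eq_zero_iff (n := k) (by
      rcases Nat.eq_zero_or_pos k with h | h
      · subst h; simp at h2
      · exact h.ne') |>.1 h2))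
  · exact ha0 h2

end SD

end Pool.Agent.W382
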