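import Mathlib

set_option autoImplicit false

open PowerSeries

namespace Pool.Agent.W382

/-- The ring of formal power series over the field with two elements. -/
abbrev O : Type := PowerSeries (ZMod 2)

/-- The series `X + X ^ 2`. -/
noncomputable def P : O := X + X ^ 2

lemma P_const : PowerSeries.constantCoeff P = 0 := by simp [P]

lemma P_coeff_one : PowerSeries.coeff 1 P = 1 := by
  simp [P, PowerSeries.coeff_X_pow]

lemma P_hasSubst : HasSubst P := HasSubst.of_constantCoeff_zero' P_const

lemma P_isUnit : IsUnit (PowerSeries.coeff 1 P) := by rw [P_coeff_one]; exact isUnit_one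

/-- The compositional inverse of `X + X ^ 2`. -/
noncomputable def Pinv : O := P.substInvOfIsUnit P_isUnit

lemma Pinv_hasSubst : HasSubst Pinv := HasSubst.substInvOfIsUnit P P_isUnit

lemma subst_Pinv_P : PowerSeries.subst Pinv P = X := subst_substInvOfIsUnit_right P P_const P_isUnit

lemma subst_P_Pinv : PowerSeries.subst P Pinv = X := subst_substInvOfIsUnit_left P P_const P_isUnit

/-- The automorphism `f(X) ↦ f(X + X ^ 2)`. -/
noncomputable def sig : RingAut O :=
  RingEquiv.ofRingHom (substAlgHom (R := ZMod 2) P_hasSubst).toRingHom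
    (substAlgHom (R := ZMod 2) Pinv_hasSubst).toRingHom
    (by
      ext1 f
      simp only [AlgHom.toRingHom_eq_coe, RingHom.coe_comp, RingHom.coe_coe, Function.comp_apply,
        coe_substAlgHom, RingHom.id_apply]
      rw [subst_comp_subst_apply Pinv_hasSubst P_hasSubst, subst_P_Pinv, X_subst])
    (by
      ext1 f
      simp only [AlgHom.toRingHom_eq_coe, RingHom.coe_comp, RingHom.coe_coe, Function.comp_apply,
        coe_substAlgHom, RingHom.id_apply]
      rw [subst_comp_subst_apply P_hasSubst Pinv_hasSubst, subst_Pinv_P, X_subst])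

lemma sig_apply (f : O) : sig f = PowerSeries.subst P f := by
  simp [sig, coe_substAlgHom]

lemma sig_X : sig (X : O) = X * (1 + X) := by
  rw [sig_apply, subst_X P_hasSubst, P]; ring

/-- Composition with `X + X ^ 2` on polynomials. -/
noncomputable def theta (p : Polynomial (ZMod 2)) : Polynomial (ZMod 2) :=
  p.comp (Polynomial.X + Polynomial.X ^ 2)

lemma sig_coe (p : Polynomial (ZMod 2)) : sig (p : O) = ((theta p : Polynomial (ZMod 2)) : O) := by
  have h : ((sig : O ≃+* O) : O →+* O).comp Polynomial.coeToPowerSeries.ringHom =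
      Polynomial.coeToPowerSeries.ringHom.comp
        (Polynomial.compRingHom (Polynomial.X + Polynomial.X ^ 2 : Polynomial (ZMod 2))) := by
    apply Polynomial.ringHom_ext'
    · exact RingHom.ext_zmod _ _
    · simp only [RingHom.coe_comp, RingHom.coe_coe, Function.comp_apply,
        Polynomial.coeToPowerSeries.ringHom_apply, Polynomial.coe_X, Polynomial.coe_compRingHom,
        Polynomial.X_comp, Polynomial.coe_add, Polynomial.coe_pow]
      have := sig_X
      rw [mul_add, mul_one, ← sq] at this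
      exact this
  have h2 := congrArg (fun F => F p) h
  simpa [theta] using h2

lemma natDegree_quad : (Polynomial.X + Polynomial.X ^ 2 : Polynomial (ZMod 2)).natDegree = 2 := by
  compute_degree!

lemma theta_natDegree (p : Polynomial (ZMod 2)) : (theta p).natDegree = 2 * p.natDegree := by
  rw [theta, Polynomial.natDegree_comp, natDegree_quad, mul_comm]

lemma theta_ne_zero {p : Polynomial (ZMod 2)} (hp : p ≠ 0) : theta p ≠ 0 := by
  intro h
  apply hp
  have h1 : sig (p : O) = 0 := by rw [sig_coe, h]; simp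
  have h2 : (p : O) = 0 := by
    have := (map_eq_zero_iff (sig : O ≃+* O) (sig : O ≃+* O).injective).1 h1
    exact this
  exact_mod_cast h2

lemma theta_mul (p q : Polynomial (ZMod 2)) : theta (p * q) = theta p * theta q := by
  simp [theta, Polynomial.mul_comp]

/-- `a` is a quotient of two polynomials. -/
def IsRat (a : O) : Prop :=
  ∃ g : Polynomial (ZMod 2), g ≠ 0 ∧ ∃ f : Polynomial (ZMod 2), (g : O) * a = (f : O)

lemma isRat_coe (p : Polynomial (ZMod 2)) : IsRat (p : O) :=
  ⟨1, one_ne_zero, p, by simp⟩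

lemma isRat_add {a b : O} (ha : IsRat a) (hb : IsRat b) : IsRat (a + b) := by
  obtain ⟨g, hg, f, hf⟩ := ha
  obtain ⟨g', hg', f', hf'⟩ := hb
  refine ⟨g * g', mul_ne_zero hg hg', f * g' + g * f', ?_⟩
  push_cast
  rw [← hf, ← hf']
  ring

lemma isRat_mul {a b : O} (ha : IsRat a) (hb : IsRat b) : IsRat (a * b) := by
  obtain ⟨g, hg, f, hf⟩ := ha
  obtain ⟨g', hg', f', hf'⟩ := hb
  refine ⟨g * g', mul_ne_zero hg hg', f * f', ?_⟩
  push_cast
  rw [← hf, ← hf']
  ring

lemma isRat_neg {a : O} (ha : IsRat a) : IsRat (-a) := by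
  obtain ⟨g, hg, f, hf⟩ := ha
  refine ⟨g, hg, -f, ?_⟩
  push_cast
  rw [← hf]
  ring

lemma isRat_sub {a b : O} (ha : IsRat a) (hb : IsRat b) : IsRat (a - b) := by
  rw [sub_eq_add_neg]; exact isRat_add ha (isRat_neg hb)

lemma isRat_sig {a : O} (ha : IsRat a) : IsRat (sig a) := by
  obtain ⟨g, hg, f, hf⟩ := ha
  refine ⟨theta g, theta_ne_zero hg, theta f, ?_⟩
  rw [← sig_coe, ← sig_coe, ← hf]
  exact (map_mul (sig : O ≃+* O) _ _).symm

lemma isRat_inv {a b : O} (ha : IsRat a) (hab : a * b = 1) : IsRat b := by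
  obtain ⟨g, hg, f, hf⟩ := ha
  have hf0 : f ≠ 0 := by
    rintro rfl
    have ha0 : a ≠ 0 := by rintro rfl; simp at hab
    have hg0 : (g : O) ≠ 0 := by exact_mod_cast hg
    have := mul_ne_zero hg0 ha0
    rw [hf] at this
    simp at this
  refine ⟨f, hf0, g, ?_⟩
  rw [← hf, mul_assoc, hab, mul_one]

/-- The sequence `h^k (0)`, where `h f = 1 + X * sig f`. -/
noncomputable def bb : ℕ → O
  | 0 => 0
  | k + 1 => 1 + X * sig (bb k)

lemma X_dvd_sig {k : ℕ} {a : O} (h : X ^ k ∣ a) : X ^ k ∣ sig a := by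
  obtain ⟨b, rfl⟩ := h
  have : sig ((X : O) ^ k * b) = X ^ k * ((1 + X) ^ k * sig b) := by
    have h1 : sig ((X : O) ^ k * b) = (sig (X : O)) ^ k * sig b := by
      rw [← map_pow (sig : O ≃+* O), ← map_mul (sig : O ≃+* O)]
    rw [h1, sig_X, mul_pow, mul_assoc]
  rw [this]
  exact dvd_mul_right _ _

/-- `α * v = β` for the limit `v` of `bb`. -/
def V (α β : O) : Prop := ∀ k, (X : O) ^ k ∣ α * bb k - β

lemma V_mul {α β : O} (h : V α β) (g : O) : V (g * α) (g * β) := by
  intro k
  have : g * α * bb k - g * β = g * (α * bb k - β) := by ring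
  rw [this]
  exact (h k).mul_left g

lemma V_step {α β : O} (h : V α β) : V (sig α) (sig α + X * sig β) := by
  intro k
  cases k with
  | zero => simp
  | succ k =>
    have h1 := X_dvd_sig (h k)
    have h2 : sig (α * bb k - β) = sig α * sig (bb k) - sig β := by
      rw [← map_mul (sig : O ≃+* O), ← map_sub (sig : O ≃+* O)]
    rw [h2] at h1
    have h3 : sig α * bb (k + 1) - (sig α + X * sig β) = X * (sig α * sig (bb k) - sig β) := by
      rw [bb]; ring
    rw [h3, pow_succ']
    exact mul_dvd_mul_left _ h1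

lemma eq_zero_of_forall_dvd {a : O} (h : ∀ k, (X : O) ^ k ∣ a) : a = 0 := by
  ext n
  have := h (n + 1)
  rw [X_pow_dvd_iff] at this
  simpa using this n (Nat.lt_succ_self n)

lemma V_poly {p q : Polynomial (ZMod 2)} (h : V (p : O) (q : O)) : p = 0 := by
  by_contra hp
  have h1 := V_step h
  have key : (q : O) * sig (p : O) - (p : O) * (sig (p : O) + X * sig (q : O)) = 0 := by
    apply eq_zero_of_forall_dvd
    intro k
    have := ((h1 k).mul_left (p : O)).sub ((h k).mul_left (sig (p : O)))
    convert this using 1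
    ring
  have key2 : q * theta p = p * (theta p + Polynomial.X * theta q) := by
    rw [sig_coe, sig_coe, sub_eq_zero] at key
    apply Polynomial.coe_injective (ZMod 2)
    simpa only [Polynomial.coe_mul, Polynomial.coe_add, Polynomial.coe_X] using key
  have htp := theta_ne_zero hp
  have hq : q ≠ 0 := by
    rintro rfl
    have : theta (0 : Polynomial (ZMod 2)) = 0 := by simp [theta]
    rw [this] at key2
    simp at key2
    tauto
  have htq := theta_ne_zero hq
  have hX : (Polynomial.X : Polynomial (ZMod 2)) ≠ 0 := Polynomial.X_ne_zero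
  have d1 : (q * theta p).natDegree = q.natDegree + 2 * p.natDegree := by
    rw [Polynomial.natDegree_mul hq htp, theta_natDegree]
  have d2 : (Polynomial.X * theta q).natDegree = 1 + 2 * q.natDegree := by
    rw [Polynomial.natDegree_mul hX htq, theta_natDegree, Polynomial.natDegree_X]
  by_cases hlt : 2 * p.natDegree < 1 + 2 * q.natDegree
  · have d3 : (theta p + Polynomial.X * theta q).natDegree = 1 + 2 * q.natDegree := by
      rw [Polynomial.natDegree_add_eq_right_of_natDegree_lt, d2]
      rw [d2, theta_natDegree]; exact hlt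
    have hne : theta p + Polynomial.X * theta q ≠ 0 := by
      intro h0
      rw [h0] at d3
      simp at d3
      omega
    have d4 : (p * (theta p + Polynomial.X * theta q)).natDegree
        = p.natDegree + (1 + 2 * q.natDegree) := by
      rw [Polynomial.natDegree_mul hp hne, d3]
    rw [← key2, d1] at d4
    omega
  · have hlt' : 1 + 2 * q.natDegree < 2 * p.natDegree := by omega
    have d3 : (theta p + Polynomial.X * theta q).natDegree = 2 * p.natDegree := by
      rw [Polynomial.natDegree_add_eq_left_of_natDegree_lt, theta_natDegree]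
      rw [d2, theta_natDegree]; exact hlt'
    have hne : theta p + Polynomial.X * theta q ≠ 0 := by
      intro h0
      rw [h0] at d3
      simp at d3
      omega
    have d4 : (p * (theta p + Polynomial.X * theta q)).natDegree
        = p.natDegree + 2 * p.natDegree := by
      rw [Polynomial.natDegree_mul hp hne, d3]
    rw [← key2, d1] at d4
    omega

lemma V_rat {α β : O} (hα : IsRat α) (hβ : IsRat β) (h : V α β) : α = 0 := by
  obtain ⟨g, hg, f, hf⟩ := hα
  obtain ⟨g', hg', f', hf'⟩ := hβ
  have h1 := V_mul h ((g * g' : Polynomial (ZMod 2)) : O)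
  have e1 : ((g * g' : Polynomial (ZMod 2)) : O) * α = ((f * g' : Polynomial (ZMod 2)) : O) := by
    push_cast; rw [← hf]; ring
  have e2 : ((g * g' : Polynomial (ZMod 2)) : O) * β = ((g * f' : Polynomial (ZMod 2)) : O) := by
    push_cast; rw [← hf']; ring
  rw [e1, e2] at h1
  have h2 := V_poly h1
  have h3 : f = 0 := (mul_eq_zero.1 h2).resolve_right hg'
  rw [h3] at hf
  simp only [Polynomial.coe_zero, mul_eq_zero] at hf
  rcases hf with hf | hf
  · exact absurd (by exact_mod_cast hf) hg
  · exact hf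

/-- `a` becomes rational after finitely many applications of `sig`. -/
def IsAdm (a : O) : Prop := ∃ N : ℕ, IsRat ((sig ^ N) a)

lemma sig_zpow_add (k l : ℤ) (a : O) : (sig ^ (k + l)) a = (sig ^ k) ((sig ^ l) a) := by
  rw [zpow_add]; rfl

lemma sig_pow_add (k l : ℕ) (a : O) : (sig ^ (k + l)) a = (sig ^ k) ((sig ^ l) a) := by
  rw [pow_add]; rfl

lemma sig_pow_succ (k : ℕ) (a : O) : (sig ^ (k + 1)) a = (sig ^ k) (sig a) := by
  rw [pow_succ]; rfl

lemma sig_pow_succ' (k : ℕ) (a : O) : (sig ^ (k + 1)) a = sig ((sig ^ k) a) := by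
  rw [pow_succ']; rfl

lemma isRat_sig_pow {a : O} (ha : IsRat a) (k : ℕ) : IsRat ((sig ^ k) a) := by
  induction k with
  | zero => simpa using ha
  | succ k ih => rw [sig_pow_succ']; exact isRat_sig ih

lemma IsRat.mono {a : O} {N M : ℕ} (h : IsRat ((sig ^ N) a)) (hNM : N ≤ M) :
    IsRat ((sig ^ M) a) := by
  obtain ⟨k, rfl⟩ := Nat.exists_eq_add_of_le hNM
  rw [add_comm, sig_pow_add]
  exact isRat_sig_pow h k

lemma V_adm_aux (N : ℕ) : ∀ {α β : O}, IsRat ((sig ^ N) α) → IsRat ((sig ^ N) β) → V α β → α = 0 := by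
  induction N with
  | zero => intro α β hα hβ h; exact V_rat (by simpa using hα) (by simpa using hβ) h
  | succ N ih =>
    intro α β hα hβ h
    have h1 := V_step h
    rw [sig_pow_succ] at hα hβ
    have h2 : IsRat ((sig ^ N) (sig α + X * sig β)) := by
      have : (sig ^ N) (sig α + X * sig β) = (sig ^ N) (sig α) + (sig ^ N) X * (sig ^ N) (sig β) := by
        rw [map_add (sig ^ N : O ≃+* O), map_mul (sig ^ N : O ≃+* O)]
      rw [this]
      refine isRat_add hα (isRat_mul (isRat_sig_pow ?_ N) hβ)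
      simpa using isRat_coe Polynomial.X
    have h3 := ih hα h2 h1
    exact (map_eq_zero_iff (sig : O ≃+* O) (sig : O ≃+* O).injective).1 h3

lemma V_adm {α β : O} (hα : IsAdm α) (hβ : IsAdm β) (h : V α β) : α = 0 := by
  obtain ⟨N, hN⟩ := hα
  obtain ⟨M, hM⟩ := hβ
  exact V_adm_aux (max N M) (hN.mono (le_max_left _ _)) (hM.mono (le_max_right _ _)) h

lemma IsAdm.add {a b : O} (ha : IsAdm a) (hb : IsAdm b) : IsAdm (a + b) := by
  obtain ⟨N, hN⟩ := ha
  obtain ⟨M, hM⟩ := hb
  refine ⟨max N M, ?_⟩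
  rw [map_add (sig ^ (max N M) : O ≃+* O)]
  exact isRat_add (hN.mono (le_max_left _ _)) (hM.mono (le_max_right _ _))

lemma IsAdm.mul {a b : O} (ha : IsAdm a) (hb : IsAdm b) : IsAdm (a * b) := by
  obtain ⟨N, hN⟩ := ha
  obtain ⟨M, hM⟩ := hb
  refine ⟨max N M, ?_⟩
  rw [map_mul (sig ^ (max N M) : O ≃+* O)]
  exact isRat_mul (hN.mono (le_max_left _ _)) (hM.mono (le_max_right _ _))

lemma IsAdm.neg {a : O} (ha : IsAdm a) : IsAdm (-a) := by
  obtain ⟨N, hN⟩ := ha
  refine ⟨N, ?_⟩
  rw [map_neg (sig ^ N : O ≃+* O)]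
  exact isRat_neg hN

lemma IsAdm.inv {a b : O} (ha : IsAdm a) (hab : a * b = 1) : IsAdm b := by
  obtain ⟨N, hN⟩ := ha
  refine ⟨N, isRat_inv hN ?_⟩
  rw [← map_mul (sig ^ N : O ≃+* O), hab, map_one (sig ^ N : O ≃+* O)]

lemma isAdm_coe (p : Polynomial (ZMod 2)) : IsAdm (p : O) := ⟨0, by simpa using isRat_coe p⟩

lemma IsAdm.sig_zpow {a : O} (ha : IsAdm a) (k : ℤ) : IsAdm ((sig ^ k) a) := by
  obtain ⟨N, hN⟩ := ha
  obtain ⟨m, rfl | rfl⟩ := k.eq_nat_or_neg
  · refine ⟨N, ?_⟩
    rw [zpow_natCast, ← sig_pow_add, add_comm, sig_pow_add]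
    exact isRat_sig_pow hN m
  · refine ⟨N + m, ?_⟩
    have : (sig ^ (N + m)) ((sig ^ (-(m : ℤ))) a) = (sig ^ N) a := by
      rw [← zpow_natCast, ← sig_zpow_add]
      push_cast
      rw [add_neg_cancel_right, zpow_natCast]
    rw [this]
    exact hN

end Pool.Agent.W382
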