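import Mathlib
import Pool.Agent.W382.Series
import Pool.Agent.W382.ScaleGroup

set_option autoImplicit false

open PowerSeries (X)

namespace Pool.Agent.W382

/-- The product of the first `j` iterates `sig^i X`. -/
noncomputable def pp : ℕ → O
  | 0 => 1
  | k + 1 => X * sig (pp k)

lemma isRat_pp (j : ℕ) : IsRat (pp j) := by
  induction j with
  | zero => simpa [pp] using isRat_coe 1
  | succ j ih =>
    rw [pp]
    exact isRat_mul (by simpa using isRat_coe Polynomial.X) (isRat_sig ih)

lemma isRat_bb (j : ℕ) : IsRat (bb j) := by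
  induction j with
  | zero => simpa [bb] using isRat_coe 0
  | succ j ih =>
    rw [bb]
    exact isRat_add (by simpa using isRat_coe 1)
      (isRat_mul (by simpa using isRat_coe Polynomial.X) (isRat_sig ih))

lemma IsRat.adm {a : O} (h : IsRat a) : IsAdm a := ⟨0, by simpa using h⟩

lemma pow_dvd_pp (k : ℕ) : (X : O) ^ k ∣ pp k := by
  induction k with
  | zero => simp
  | succ k ih =>
    rw [pp, pow_succ']
    exact mul_dvd_mul_left _ (X_dvd_sig ih)

lemma bb_add (j k : ℕ) : bb (j + k) = bb j + pp j * (sig ^ j) (bb k) := by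
  induction j with
  | zero => simp [bb, pp]
  | succ j ih =>
    have e : j + 1 + k = (j + k) + 1 := by ring
    rw [e, bb, ih, bb, pp, sig_pow_succ', map_add (sig : O ≃+* O), map_mul (sig : O ≃+* O)]
    ring

lemma pow_dvd_bb (k j : ℕ) : (X : O) ^ k ∣ bb (k + j) - bb k := by
  rw [bb_add, add_sub_cancel_left]
  exact (pow_dvd_pp k).mul_right _

/-- The core computation. -/
lemma core {c u v : O} {j : ℕ} (hc : IsAdm c) (hu : IsAdm u) (huv : u * v = 1)
    (h : ∀ k, (X : O) ^ k ∣ c + u * (sig ^ j) (bb k) - bb k) : j = 0 ∧ u = 1 ∧ c = 0 := by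
  have hV : V (u - pp j) (u * bb j - pp j * c) := by
    intro k
    have h1 := (h k).mul_left (pp j)
    have h2 := (pow_dvd_bb k j).mul_left u
    have h3 := h1.sub h2
    convert h3 using 1
    rw [add_comm k j, bb_add j k]
    ring
  have h1 : u - pp j = 0 := by
    refine V_adm ?_ ?_ hV
    · rw [sub_eq_add_neg]
      exact hu.add (isRat_pp j).adm.neg
    · rw [sub_eq_add_neg]
      exact (hu.mul (isRat_bb j).adm).add ((isRat_pp j).adm.mul hc).neg
  have h2 : u = pp j := sub_eq_zero.1 h1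
  have hj : j = 0 := by
    by_contra hj
    obtain ⟨i, rfl⟩ := Nat.exists_eq_succ_of_ne_zero hj
    have h3 : (X : O) ∣ u := by
      rw [h2, Nat.succ_eq_add_one, pp]; exact dvd_mul_right _ _
    have h4 : (X : O) ∣ 1 := by rw [← huv]; exact h3.mul_right _
    rw [PowerSeries.X_dvd_iff] at h4
    simp at h4
  subst hj
  have hu1 : u = 1 := by rw [h2]; rfl
  refine ⟨rfl, hu1, ?_⟩
  apply eq_zero_of_forall_dvd
  intro k
  have := h k
  rw [hu1] at this
  simpa using this

section

variable {E : Type} [Field E] (D : SD E) (io : O →+* E)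

/-- `e ↦ c + u s^k e` with admissible coefficients. -/
def Form (γ : Equiv.Perm E) : Prop :=
  ∃ (c u v : O) (k : ℤ), IsAdm c ∧ IsAdm u ∧ u * v = 1 ∧
    ∀ e : E, γ e = io c + io u * ((D.s : RingAut E) ^ k) e

lemma s_zpow_add (s : RingAut E) (k l : ℤ) (a : E) : (s ^ (k + l)) a = (s ^ k) ((s ^ l) a) := by
  rw [zpow_add]; rfl

lemma s_zpow_io (hs : ∀ f, D.s (io f) = io (sig f)) (k : ℤ) (f : O) :
    ((D.s : RingAut E) ^ k) (io f) = io ((sig ^ k) f) := by
  have hpos : ∀ (m : ℕ) (f : O), ((D.s : RingAut E) ^ m) (io f) = io ((sig ^ m) f) := by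
    intro m
    induction m with
    | zero => intro f; simp
    | succ m ih =>
      intro f
      rw [pow_succ, pow_succ]
      have h1 : ((D.s : RingAut E) ^ m * D.s) (io f) = ((D.s : RingAut E) ^ m) (D.s (io f)) := rfl
      have h2 : (sig ^ m * sig) f = (sig ^ m) (sig f) := rfl
      rw [h1, h2, hs, ih]
  obtain ⟨m, rfl | rfl⟩ := k.eq_nat_or_neg
  · simpa using hpos m f
  · have h1 := hpos m ((sig ^ (-(m : ℤ))) f)
    have h2 : (sig ^ m) ((sig ^ (-(m : ℤ))) f) = f := by
      rw [← zpow_natCast, ← sig_zpow_add]; simp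
    rw [h2] at h1
    rw [← h1, ← zpow_natCast, ← s_zpow_add]; simp

lemma form_mul (hs : ∀ f, D.s (io f) = io (sig f)) {γ δ : Equiv.Perm E}
    (hγ : Form D io γ) (hδ : Form D io δ) : Form D io (γ * δ) := by
  obtain ⟨c, u, v, k, hc, hu, huv, h⟩ := hγ
  obtain ⟨c', u', v', k', hc', hu', huv', h'⟩ := hδ
  refine ⟨c + u * (sig ^ k) c', u * (sig ^ k) u', v * (sig ^ k) v', k + k', 
    hc.add (hu.mul (hc'.sig_zpow k)), hu.mul (hu'.sig_zpow k), ?_, ?_⟩
  · have : u * (sig ^ k) u' * (v * (sig ^ k) v') = (u * v) * ((sig ^ k) u' * (sig ^ k) v') := by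
      ring
    rw [this, huv, ← map_mul (sig ^ k : O ≃+* O), huv', map_one (sig ^ k : O ≃+* O), one_mul]
  · intro e
    rw [Equiv.Perm.mul_apply, h', h, map_add ((D.s : RingAut E) ^ k : E ≃+* E),
      map_mul ((D.s : RingAut E) ^ k : E ≃+* E), s_zpow_io D io hs, s_zpow_io D io hs,
      s_zpow_add, map_add, map_mul, map_mul]
    ring

lemma form_inv (hs : ∀ f, D.s (io f) = io (sig f)) {γ : Equiv.Perm E}
    (hγ : Form D io γ) : Form D io γ⁻¹ := by
  obtain ⟨c, u, v, k, hc, hu, huv, h⟩ := hγ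
  have hv : IsAdm v := hu.inv huv
  refine ⟨-((sig ^ (-k)) (v * c)), (sig ^ (-k)) v, (sig ^ (-k)) u, -k,
    ((hv.mul hc).sig_zpow _).neg, hv.sig_zpow _, ?_, ?_⟩
  · rw [← map_mul (sig ^ (-k) : O ≃+* O), mul_comm v u, huv, map_one (sig ^ (-k) : O ≃+* O)]
  · intro e
    rw [Equiv.Perm.inv_eq_iff_eq, h, map_add ((D.s : RingAut E) ^ k : E ≃+* E),
      map_mul ((D.s : RingAut E) ^ k : E ≃+* E), s_zpow_io D io hs, s_zpow_io D io hs,
      ← s_zpow_add, map_neg (sig ^ k : O ≃+* O), ← sig_zpow_add, ← sig_zpow_add, add_neg_cancel]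
    simp only [zpow_zero, RingAut.one_apply, map_neg, map_mul]
    have h1 : io u * io v = 1 := by rw [← map_mul, huv, map_one]
    linear_combination (io c - e) * h1

lemma form_one : Form D io 1 :=
  ⟨0, 1, 1, 0, by simpa using isAdm_coe 0, by simpa using isAdm_coe 1, one_mul 1, fun e => by simp⟩

lemma form_mem (hx : D.x = io X) (hs : ∀ f, D.s (io f) = io (sig f)) {γ : Equiv.Perm E}
    (hγ : γ ∈ D.Gam) : Form D io γ := by
  have hadm1 : IsAdm (1 : O) := by simpa using isAdm_coe 1
  have hadm0 : IsAdm (0 : O) := by simpa using isAdm_coe 0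
  have hadmX : IsAdm (X : O) := by simpa using isAdm_coe Polynomial.X
  unfold SD.Gam at hγ
  induction hγ using Subgroup.closure_induction with
  | mem g hg =>
    simp only [Set.mem_insert_iff, Set.mem_singleton_iff] at hg
    rcases hg with rfl | rfl | rfl
    · exact ⟨1, 1, 1, 0, hadm1, hadm1, one_mul 1, fun e => by simp [SD.tauP_apply]⟩
    · have hu : IsUnit (1 + X : O) := by
        rw [PowerSeries.isUnit_iff_constantCoeff]; simp
      obtain ⟨v, hv⟩ := hu.exists_right_inv
      exact ⟨0, 1 + X, v, 0, hadm0, hadm1.add hadmX, hv, fun e => by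
        simp [SD.wP_apply, hx]⟩
    · exact ⟨0, 1, 1, 1, hadm0, hadm1, one_mul 1, fun e => by simp [SD.gP_apply]⟩
  | one => exact form_one D io
  | mul a b _ _ ha hb => exact form_mul D io hs ha hb
  | inv a _ ha => exact form_inv D io hs ha

lemma h_pow_io (hx : D.x = io X) (hs : ∀ f, D.s (io f) = io (sig f)) (k : ℕ) (f : O) :
    ∃ g : O, (D.hP ^ k) (io f) = io (bb k + X ^ k * g) := by
  induction k with
  | zero => exact ⟨f, by simp [bb]⟩
  | succ k ih =>
    obtain ⟨g, hg⟩ := ih
    obtain ⟨g', hg'⟩ := X_dvd_sig (Dvd.intro g (rfl : (X : O) ^ k * g = X ^ k * g))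
    refine ⟨g', ?_⟩
    rw [pow_succ', Equiv.Perm.mul_apply, hg, SD.hP_apply, hx, hs, bb, pow_succ',
      map_add (sig : O ≃+* O), hg']
    simp only [map_add, map_mul, map_one, map_pow]
    ring

lemma h_pow_zero (hx : D.x = io X) (hs : ∀ f, D.s (io f) = io (sig f)) (k : ℕ) :
    (D.hP ^ k) 0 = io (bb k) := by
  induction k with
  | zero => simp [bb]
  | succ k ih =>
    rw [pow_succ', Equiv.Perm.mul_apply, ih, SD.hP_apply, hx, hs, bb]
    simp only [map_add, map_mul, map_one]

/-- An element of all images has the trivial form if its exponent is nonnegative. -/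
lemma inter_aux (hinj : Function.Injective io) (hx : D.x = io X)
    (hs : ∀ f, D.s (io f) = io (sig f)) (γ : D.Gam)
    (hγ : ∀ k : ℕ, ∃ δ : D.Gam, D.phi^[k] δ = γ) (c u v : O) (j : ℕ) (hc : IsAdm c) (hu : IsAdm u)
    (huv : u * v = 1)
    (h : ∀ e : E, (γ : Equiv.Perm E) e = io c + io u * ((D.s : RingAut E) ^ (j : ℤ)) e) : γ = 1 := by
  have h1 : ∀ k, (X : O) ^ k ∣ c + u * (sig ^ j) (bb k) - bb k := by
    intro k
    obtain ⟨δ, hδ⟩ := hγ k
    have e1 : (γ : Equiv.Perm E) * D.hP ^ k = D.hP ^ k * (δ : Equiv.Perm E) := by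
      have := D.phi_iterate k δ
      rw [hδ] at this
      rw [this]; group
    have e2 := congrArg (fun p : Equiv.Perm E => p 0) e1
    simp only [Equiv.Perm.mul_apply] at e2
    rw [h_pow_zero D io hx hs, h, s_zpow_io D io hs] at e2
    obtain ⟨c', u', v', j', _, _, _, h'⟩ := form_mem D io hx hs δ.2
    rw [h' 0, map_zero, mul_zero, add_zero] at e2
    obtain ⟨g, hg⟩ := h_pow_io D io hx hs k c'
    rw [hg, ← map_mul, ← map_add] at e2
    have e3 := hinj e2
    rw [zpow_natCast] at e3
    rw [e3, add_sub_cancel_left]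
    exact dvd_mul_right _ _
  obtain ⟨rfl, rfl, rfl⟩ := core hc hu huv h1
  ext e
  rw [h]
  simp

lemma inter_trivial (hinj : Function.Injective io) (hx : D.x = io X)
    (hs : ∀ f, D.s (io f) = io (sig f)) (γ : D.Gam)
    (hγ : ∀ k : ℕ, ∃ δ : D.Gam, D.phi^[k] δ = γ) : γ = 1 := by
  obtain ⟨c, u, v, k, hc, hu, huv, h⟩ := form_mem D io hx hs γ.2
  obtain ⟨m, rfl | rfl⟩ := k.eq_nat_or_neg
  · exact inter_aux D io hinj hx hs γ hγ c u v m hc hu huv h
  · have hγ' : ∀ k : ℕ, ∃ δ : D.Gam, D.phi^[k] δ = γ⁻¹ := by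
      intro k
      obtain ⟨δ, hδ⟩ := hγ k
      refine ⟨δ⁻¹, ?_⟩
      rw [← hδ, iterate_map_inv]
    have hinv : ∀ e : E, ((γ⁻¹ : D.Gam) : Equiv.Perm E) e =
        io (-((sig ^ m) (v * c))) + io ((sig ^ m) v) * ((D.s : RingAut E) ^ (m : ℤ)) e := by
      intro e
      rw [Subgroup.coe_inv, Equiv.Perm.inv_eq_iff_eq, h,
        map_add ((D.s : RingAut E) ^ (-(m : ℤ)) : E ≃+* E),
        map_mul ((D.s : RingAut E) ^ (-(m : ℤ)) : E ≃+* E), s_zpow_io D io hs, s_zpow_io D io hs,
        ← s_zpow_add, map_neg (sig ^ (-(m : ℤ)) : O ≃+* O), ← zpow_natCast, ← sig_zpow_add,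
        ← sig_zpow_add, neg_add_cancel]
      simp only [zpow_zero, RingAut.one_apply, map_neg, map_mul]
      have h1 : io u * io v = 1 := by rw [← map_mul, huv, map_one]
      linear_combination (io c - e) * h1
    have hv : IsAdm v := hu.inv huv
    have huv' : (sig ^ m) v * (sig ^ m) u = 1 := by
      rw [← map_mul (sig ^ m : O ≃+* O), mul_comm v u, huv, map_one (sig ^ m : O ≃+* O)]
    have hadm : ∀ a : O, IsAdm a → IsAdm ((sig ^ m) a) := by
      intro a ha
      have := ha.sig_zpow (m : ℤ)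
      rwa [zpow_natCast] at this
    have := inter_aux D io hinj hx hs γ⁻¹ hγ' _ _ _ m (hadm _ (hv.mul hc)).neg (hadm _ hv) huv' hinv
    exact inv_eq_one.1 this

end

/-- The data exist: the fraction field of the ring of power series. -/
lemma exists_data : ∃ (E : Type) (_ : Field E) (D : SD E) (io : O →+* E),
    Function.Injective io ∧ D.x = io X ∧ ∀ f, D.s (io f) = io (sig f) := by
  have hinj : Function.Injective (algebraMap O (FractionRing O)) :=
    IsFractionRing.injective O (FractionRing O)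
  have h2 : (2 : O) = 0 := by
    have h' : (2 : O) = PowerSeries.C (2 : ZMod 2) := by
      rw [map_ofNat]
    rw [h']
    have : (2 : ZMod 2) = 0 := by decide
    rw [this]; simp
  refine ⟨FractionRing O, inferInstance,
    { s := IsFractionRing.ringEquivOfRingEquiv (sig : O ≃+* O)
      x := algebraMap O (FractionRing O) X
      x_ne := ?_
      x1_ne := ?_
      two := ?_
      s_x := ?_ }, algebraMap O (FractionRing O), hinj, rfl, ?_⟩
  · intro h
    exact PowerSeries.X_ne_zero ((map_eq_zero_iff _ hinj).1 h)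
  · intro h
    have h0 : algebraMap O (FractionRing O) (1 + X) = 0 := by rw [map_add, map_one]; exact h
    have := (map_eq_zero_iff _ hinj).1 h0
    have h1 := congrArg PowerSeries.constantCoeff this
    simp at h1
  · have : (2 : FractionRing O) = algebraMap O (FractionRing O) 2 := by rw [map_ofNat]
    rw [this, h2, map_zero]
  · rw [IsFractionRing.ringEquivOfRingEquiv_algebraMap, sig_X, map_mul, map_add, map_one]
  · intro f
    exact IsFractionRing.ringEquivOfRingEquiv_algebraMap (sig : O ≃+* O) f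

lemma one_add_X_pow_ne {m : ℕ} (hm : 0 < m) : (1 + X : O) ^ m ≠ 1 := by
  intro h
  have h1 : ((1 + Polynomial.X : Polynomial (ZMod 2)) ^ m : Polynomial (ZMod 2)) = 1 := by
    apply Polynomial.coe_injective (ZMod 2)
    simpa using h
  have h2 := congrArg Polynomial.natDegree h1
  have h3 : (1 + Polynomial.X : Polynomial (ZMod 2)).natDegree = 1 := by compute_degree!
  rw [Polynomial.natDegree_pow, h3, Polynomial.natDegree_one] at h2
  omega

/-- The counterexample. -/
theorem counterexample : ∃ (Γ : Type) (_ : Group Γ), Group.FG Γ ∧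
    (∃ φ : Γ →* Γ, Function.Injective φ ∧ φ.range.FiniteIndex ∧
      (⋂ k : ℕ, Set.range ((⇑φ)^[k + 1])) = {1}) ∧
    ∀ H : Subgroup Γ, H.FiniteIndex → ¬ Group.IsNilpotent ↥H := by
  obtain ⟨E, _, D, io, hinj, hx, hs⟩ := exists_data
  refine ⟨D.Gam, inferInstance, ?_, ⟨D.phi, D.phi_injective, D.finiteIndex, ?_⟩, ?_⟩
  · unfold SD.Gam
    exact Group.closure_finite_fg _
  · apply Set.eq_singleton_iff_unique_mem.2
    constructor
    · simp only [Set.mem_iInter, Set.mem_range]
      intro k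
      exact ⟨1, iterate_map_one D.phi (k + 1)⟩
    · intro γ hγ
      simp only [Set.mem_iInter, Set.mem_range] at hγ
      apply inter_trivial D io hinj hx hs γ
      intro k
      cases k with
      | zero => exact ⟨γ, rfl⟩
      | succ k => exact hγ k
  · intro H hH hn
    apply D.not_virtually_nilpotent ?_ H hH hn
    intro m hm h
    apply one_add_X_pow_ne hm
    apply hinj
    rw [map_pow, map_add, map_one, ← hx, h]

end Pool.Agent.W382
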