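import Mathlib

/-!
For every cover of a group `G` by `n` sets `A i`, some `(A i * (A i)⁻¹) ^ (4 ^ (n - 1))` is a
subgroup of index at most `n`  (problem MP_bb8083_al).
-/

set_option autoImplicit false
open scoped Pointwise

namespace Pool.Agent.W382.DiffPow

variable {G : Type*} [Group G]

theorem pow_sub_subgroup {S : Set G} {H : Subgroup G} (h : S ⊆ H) (m : ℕ) : S ^ m ⊆ (H : Set G) := by
  induction m with
  | zero => rw [pow_zero]; rintro x rfl; exact H.one_mem
  | succ m ih =>
    rw [pow_succ]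
    rintro _ ⟨a, ha, b, hb, rfl⟩
    exact H.mul_mem (ih ha) (h hb)

theorem one_mem_diff {A : Set G} (h : A.Nonempty) : (1 : G) ∈ A * A⁻¹ := by
  obtain ⟨a, ha⟩ := h
  exact ⟨a, ha, a⁻¹, by simpa using ha, by simp⟩

theorem inv_diff (A : Set G) : (A * A⁻¹)⁻¹ = A * A⁻¹ := by
  rw [mul_inv_rev, inv_inv]

/-- in a finite group -/
theorem finite_case {Q : Type*} [Group Q] [Finite Q] (B : Set Q) (hB : B.Nonempty) (n : ℕ)
    (hn : 0 < n) (hcard : Nat.card Q ≤ n * B.ncard) :
    ∃ K : Subgroup Q, (B * B⁻¹) ^ (2 * n - 1) = (K : Set Q) ∧ K.index ≤ n := by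
  classical
  set S := B * B⁻¹ with hS
  have h1 : (1 : Q) ∈ S := one_mem_diff hB
  have hSinv : S⁻¹ = S := inv_diff B
  have hBpos : 0 < B.ncard := (Set.ncard_pos).mpr hB
  by_cases hst : ∃ t, 1 ≤ t ∧ t ≤ n ∧ S ^ (2 * t) ⊆ S ^ (2 * t - 1)
  · obtain ⟨t, ht1, htn, ht⟩ := hst
    -- then `S ^ (2 t - 1)` is a subgroup
    have hstep : ∀ m, S ^ (2 * t - 1 + m) ⊆ S ^ (2 * t - 1) := by
      intro m
      induction m with
      | zero => simp
      | succ m ih =>
        have e1 : S ^ (2 * t - 1 + (m + 1)) = S ^ (2 * t - 1 + m) * S := by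
          rw [← pow_succ]; rfl
        rw [e1]
        refine (Set.mul_subset_mul_right ih).trans ?_
        rw [← pow_succ]
        have : 2 * t - 1 + 1 = 2 * t := by omega
        rw [this]
        exact ht
    have hall : ∀ m, S ^ m ⊆ S ^ (2 * t - 1) := by
      intro m
      rcases le_total m (2 * t - 1) with h | h
      · exact Set.pow_subset_pow_right h1 h
      · obtain ⟨k, rfl⟩ := Nat.exists_eq_add_of_le h
        exact hstep k
    let K : Subgroup Q :=
      { carrier := S ^ (2 * t - 1)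
        mul_mem' := by
          intro a b ha hb
          have : a * b ∈ S ^ (2 * t - 1 + (2 * t - 1)) := by
            rw [pow_add]; exact Set.mul_mem_mul ha hb
          exact hall _ this
        one_mem' := Set.one_mem_pow h1
        inv_mem' := by
          intro a ha
          have : a⁻¹ ∈ (S ^ (2 * t - 1))⁻¹ := by simpa using ha
          rw [← inv_pow, hSinv] at this
          exact this }
    have hKS : (K : Set Q) = S ^ (2 * t - 1) := rfl
    refine ⟨K, ?_, ?_⟩
    · apply Set.Subset.antisymm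
      · rw [hKS]; exact hall _
      · rw [hKS]; exact Set.pow_subset_pow_right h1 (by omega)
    · -- index
      have hSK : S ⊆ K := by
        rw [hKS]
        calc S = S ^ 1 := (pow_one S).symm
          _ ⊆ S ^ (2 * t - 1) := Set.pow_subset_pow_right h1 (by omega)
      obtain ⟨b, hb⟩ := hB
      have hBK : B.ncard ≤ Nat.card K := by
        have hinj : Function.Injective (fun x : Q => x * b⁻¹) := mul_left_injective _
        have h2 : ((fun x : Q => x * b⁻¹) '' B).ncard = B.ncard :=
          Set.ncard_image_of_injective _ hinj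
        rw [← h2, ← SetLike.coe_sort_coe, Nat.card_coe_set_eq]
        refine Set.ncard_le_ncard ?_ (Set.toFinite _)
        rintro _ ⟨x, hx, rfl⟩
        exact hSK ⟨x, hx, b⁻¹, by simpa using hb, rfl⟩
      have h3 : K.index * Nat.card K = Nat.card Q := K.index_mul_card
      have h4 : K.index * B.ncard ≤ n * B.ncard := by
        calc K.index * B.ncard ≤ K.index * Nat.card K := Nat.mul_le_mul_left _ hBK
          _ = Nat.card Q := h3
          _ ≤ n * B.ncard := hcard
      exact Nat.le_of_mul_le_mul_right h4 hBpos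
  · exfalso
    push Not at hst
    have hex : ∀ t : ℕ, ∃ z : Q, (t ≤ n → z ∈ S ^ (2 * t)) ∧
        (1 ≤ t → t ≤ n → z ∉ S ^ (2 * t - 1)) := by
      intro t
      by_cases h : 1 ≤ t ∧ t ≤ n
      · obtain ⟨z, hz, hz'⟩ := Set.not_subset.mp (hst t h.1 h.2)
        exact ⟨z, fun _ => hz, fun _ _ => hz'⟩
      · refine ⟨1, fun _ => Set.one_mem_pow h1, fun h5 h6 => absurd ⟨h5, h6⟩ h⟩
    choose z hz1 hz2 using hex
    -- disjoint translates
    have hdis : ∀ s t : ℕ, s < t → t ≤ n → ∀ b ∈ B, ∀ b' ∈ B, z s * b ≠ z t * b' := by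
      intro s t hst' htn b hb b' hb' heq
      have e1 : z t = z s * (b * b'⁻¹) := by
        rw [← mul_assoc, heq]; simp
      have e2 : z t ∈ S ^ (2 * s + 1) := by
        rw [e1, pow_succ]
        exact Set.mul_mem_mul (hz1 s (by omega)) ⟨b, hb, b'⁻¹, by simpa using hb', rfl⟩
      exact hz2 t (by omega) htn (Set.pow_subset_pow_right h1 (by omega) e2)
    have hinj : Function.Injective (fun p : Fin (n + 1) × B => z p.1 * (p.2 : Q)) := by
      rintro ⟨s, b⟩ ⟨t, b'⟩ h
      simp only at h
      rcases lt_trichotomy (s : ℕ) (t : ℕ) with hlt | heq | hlt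
      · exact absurd h (hdis s t hlt (by omega) b b.2 b' b'.2)
      · have hst' : s = t := Fin.ext heq
        subst hst'
        have : (b : Q) = b' := mul_left_cancel h
        rw [Subtype.ext this]
      · exact absurd h.symm (hdis t s hlt (by omega) b' b'.2 b b.2)
    have hc := Nat.card_le_card_of_injective _ hinj
    rw [Nat.card_prod, Nat.card_fin, Nat.card_coe_set_eq] at hc
    have : (n + 1) * B.ncard ≤ n * B.ncard := hc.trans hcard
    have := Nat.le_of_mul_le_mul_right this hBpos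
    omega

/-- the irreducible case -/
theorem irreducible_case (n : ℕ) (A : Fin n → Set G) (hn : 2 ≤ n)
    (hcov : (⋃ i, A i) = Set.univ) (x : Fin n → G) (hxA : ∀ j, x j ∈ A j)
    (hx : ∀ j i, i ≠ j → x j ∉ (A i * (A i)⁻¹) * A i) :
    ∃ i : Fin n, ∃ H : Subgroup G,
      ((A i * (A i)⁻¹) ^ (4 ^ (n - 1)) : Set G) = (H : Set G) ∧ H.index ≠ 0 ∧ H.index ≤ n := by
  classical
  have hcov' : ∀ g : G, ∃ i, g ∈ A i := fun g => Set.mem_iUnion.mp (hcov ▸ Set.mem_univ g)
  have hinv : ∀ i, ∀ g ∈ A i * (A i)⁻¹, g⁻¹ ∈ A i * (A i)⁻¹ := by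
    intro i g hg
    have : g⁻¹ ∈ (A i * (A i)⁻¹)⁻¹ := Set.inv_mem_inv.mpr hg
    rwa [inv_diff] at this
  -- key fact
  have hkey : ∀ j, ∀ g : G, (∀ i, g ∈ A i * (A i)⁻¹) → g * x j ∈ A j := by
    intro j g hg
    obtain ⟨i, hi⟩ := hcov' (g * x j)
    by_cases hij : i = j
    · rwa [hij] at hi
    · exfalso
      refine hx j i hij ?_
      exact ⟨g⁻¹, hinv i g (hg i), g * x j, hi, by simp⟩
  let S₀ : Subgroup G :=
    { carrier := {g | ∀ i, g ∈ A i * (A i)⁻¹}
      mul_mem' := by
        intro a b ha hb j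
        have h1 := hkey j a ha
        have h2 := hkey j b⁻¹ (fun i => hinv i b (hb i))
        refine ⟨a * x j, h1, (b⁻¹ * x j)⁻¹, by simpa using h2, ?_⟩
        simp
      one_mem' := fun i => one_mem_diff ⟨x i, hxA i⟩
      inv_mem' := fun ha i => hinv i _ (ha i) }
  have hS₀ : ∀ g, g ∈ S₀ ↔ ∀ i, g ∈ A i * (A i)⁻¹ := fun g => Iff.rfl
  -- colour of an element outside `S₀`
  have hcol : ∀ g : G, g ∉ S₀ → ∃ p : Fin n × Fin n, p.1 ≠ p.2 ∧ g * x p.2 ∈ A p.1 := by
    intro g hg
    rw [hS₀] at hg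
    push Not at hg
    obtain ⟨j, hj⟩ := hg
    obtain ⟨i, hi⟩ := hcov' (g * x j)
    refine ⟨(i, j), ?_, hi⟩
    intro hij
    have hij' : i = j := hij
    subst hij'
    exact hj ⟨g * x i, hi, (x i)⁻¹, by simpa using hxA i, by simp⟩
  have hprod : ∀ (u v : G) (p : Fin n × Fin n), p.1 ≠ p.2 → u * x p.2 ∈ A p.1 →
      v * x p.2 ∈ A p.1 → u * v * x p.2 ∈ A p.1 → False := by
    intro u v p hp hu hv huv
    refine hx p.2 p.1 hp ?_
    refine ⟨u⁻¹, hinv _ u ?_, u * x p.2, hu, by simp⟩
    exact ⟨u * v * x p.2, huv, (v * x p.2)⁻¹, by simpa using hv, by simp [mul_assoc]⟩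
  have hfin : S₀.FiniteIndex := by
    by_contra hinf
    have hInf : Infinite (G ⧸ S₀) := by
      rw [Subgroup.finiteIndex_iff_finite_quotient] at hinf
      exact not_finite_iff_infinite.mp hinf
    let U : Ultrafilter (G ⧸ S₀) := Filter.hyperfilter (G ⧸ S₀)
    let R : (G ⧸ S₀) → (G ⧸ S₀) → (Fin n × Fin n) → Prop := fun a b p =>
      p.1 ≠ p.2 ∧ a.out⁻¹ * b.out * x p.2 ∈ A p.1
    have hR : ∀ a b, a ≠ b → ∃ p, R a b p := by
      intro a b hab
      refine hcol _ ?_
      intro hmem
      apply hab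
      have := QuotientGroup.eq.mpr hmem
      simpa using this
    have hcolor : ∀ a, ∃ p, ∀ᶠ b in (U : Filter (G ⧸ S₀)), R a b p := by
      intro a
      by_contra hcon
      push Not at hcon
      have h1 : ∀ p, ∀ᶠ b in (U : Filter (G ⧸ S₀)), ¬ R a b p := by
        intro p
        exact hcon p
      have h2 : ∀ᶠ b in (U : Filter (G ⧸ S₀)), ∀ p, ¬ R a b p :=
        Filter.eventually_all.mpr h1
      have h3 : ∀ᶠ b in (U : Filter (G ⧸ S₀)), b ≠ a :=
        Filter.compl_mem_hyperfilter_of_finite (Set.finite_singleton a)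
      obtain ⟨b, hb1, hb2⟩ := (h2.and h3).exists
      obtain ⟨p, hp⟩ := hR a b (Ne.symm hb2)
      exact hb1 p hp
    choose c hc using hcolor
    have hc2 : ∃ p, ∀ᶠ a in (U : Filter (G ⧸ S₀)), c a = p := by
      by_contra hcon
      push Not at hcon
      have h1 : ∀ p, ∀ᶠ b in (U : Filter (G ⧸ S₀)), ¬ c b = p :=
        fun p => hcon p
      have h2 : ∀ᶠ b in (U : Filter (G ⧸ S₀)), ∀ p, ¬ c b = p :=
        Filter.eventually_all.mpr h1
      obtain ⟨b, hb⟩ := h2.exists
      exact hb _ rfl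
    obtain ⟨p, hp⟩ := hc2
    obtain ⟨a, ha⟩ := hp.exists
    have ha' := hc a
    rw [ha] at ha'
    obtain ⟨b, hb1, hb2⟩ := (hp.and ha').exists
    have hb' := hc b
    rw [hb1] at hb'
    obtain ⟨d, hd1, hd2⟩ := (ha'.and hb').exists
    refine hprod (a.out⁻¹ * b.out) (b.out⁻¹ * d.out) p hb2.1 hb2.2 hd2.2 ?_
    have : a.out⁻¹ * b.out * (b.out⁻¹ * d.out) = a.out⁻¹ * d.out := by group
    rw [this]
    exact hd1.2
  -- the finite quotient
  have hN : S₀.normalCore.FiniteIndex := inferInstance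
  let Q := G ⧸ S₀.normalCore
  let π : G →* Q := QuotientGroup.mk' S₀.normalCore
  have hπ : Function.Surjective π := QuotientGroup.mk'_surjective _
  have hQ : Finite Q := S₀.normalCore.finiteIndex_iff_finite_quotient.mp hN
  obtain ⟨i, hi⟩ : ∃ i, Nat.card Q ≤ n * (π '' A i).ncard := by
    by_contra hcon
    push Not at hcon
    have h1 : (⋃ i, π '' A i) = Set.univ := by
      rw [← Set.image_iUnion, hcov, Set.image_univ, Set.range_eq_univ.mpr hπ]
    have h2 : Nat.card Q ≤ ∑ i, (π '' A i).ncard := by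
      rw [← Set.ncard_univ, ← h1]
      have := Set.ncard_iUnion_le_of_fintype (fun i => π '' A i)
      exact this
    have h3 : n * Nat.card Q ≤ ∑ i, n * (π '' A i).ncard := by
      rw [← Finset.mul_sum]
      exact Nat.mul_le_mul_left _ h2
    have h4 : ∑ i : Fin n, n * (π '' A i).ncard < ∑ i : Fin n, Nat.card Q := by
      apply Finset.sum_lt_sum_of_nonempty
      · exact ⟨⟨0, by omega⟩, Finset.mem_univ _⟩
      · intro i _
        exact hcon i
    rw [Finset.sum_const, Finset.card_univ, Fintype.card_fin, smul_eq_mul] at h4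
    omega
  have hne : (A i).Nonempty := ⟨x i, hxA i⟩
  obtain ⟨K, hK, hKi⟩ := finite_case (π '' A i) (hne.image π) n (by omega) hi
  have hπS : (π '' A i) * (π '' A i)⁻¹ = π '' (A i * (A i)⁻¹) := by
    rw [Set.image_mul, Set.image_inv]
  set S := A i * (A i)⁻¹ with hS
  have h1S : (1 : G) ∈ S := one_mem_diff hne
  refine ⟨i, K.comap π, ?_, ?_, ?_⟩
  · rw [hπS, ← Set.image_pow] at hK
    apply Set.Subset.antisymm
    · refine pow_sub_subgroup ?_ _
      intro g hg
      show π g ∈ K
      rw [← SetLike.mem_coe, ← hK]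
      have : g ∈ S ^ (2 * n - 1) := by
        have h5 : S ^ 1 ⊆ S ^ (2 * n - 1) := Set.pow_subset_pow_right h1S (by omega)
        rw [pow_one] at h5
        exact h5 hg
      exact ⟨g, this, rfl⟩
    · intro g hg
      have hg' : π g ∈ (K : Set Q) := hg
      rw [← hK] at hg'
      obtain ⟨s, hs, hsg⟩ := hg'
      have h6 : s⁻¹ * g ∈ S₀.normalCore := QuotientGroup.eq.mp hsg
      have h7 : s⁻¹ * g ∈ S := (Subgroup.normalCore_le _ h6) i
      have h8 : g ∈ S ^ (2 * n) := by
        have : 2 * n = (2 * n - 1) + 1 := by omega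
        rw [this, pow_succ]
        exact ⟨s, hs, s⁻¹ * g, h7, by simp⟩
      refine Set.pow_subset_pow_right h1S ?_ h8
      -- `2 n ≤ 4 ^ (n - 1)`
      have : ∀ m : ℕ, 1 ≤ m → 2 * (m + 1) ≤ 4 ^ m := by
        intro m hm
        induction m, hm using Nat.le_induction with
        | base => norm_num
        | succ m hm ih => rw [pow_succ]; omega
      have h9 := this (n - 1) (by omega)
      have h10 : n - 1 + 1 = n := by omega
      rwa [h10] at h9
  · rw [Subgroup.index_comap_of_surjective _ hπ]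
    exact Subgroup.index_ne_zero_of_finite
  · rw [Subgroup.index_comap_of_surjective _ hπ]
    exact hKi

/-- the theorem, for covers -/
theorem main (n : ℕ) : ∀ (A : Fin n → Set G), (⋃ i, A i) = Set.univ →
    ∃ i : Fin n, ∃ H : Subgroup G,
      ((A i * (A i)⁻¹) ^ (4 ^ (n - 1)) : Set G) = (H : Set G) ∧ H.index ≠ 0 ∧ H.index ≤ n := by
  classical
  induction n with
  | zero =>
    intro A hA
    exfalso
    have : (1 : G) ∈ ⋃ i, A i := by rw [hA]; trivial
    simp at this
  | succ n ih =>
    intro A hA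
    have hcov' : ∀ g : G, ∃ i, g ∈ A i := fun g => Set.mem_iUnion.mp (hA ▸ Set.mem_univ g)
    rcases Nat.eq_zero_or_pos n with hn0 | hn0
    · subst hn0
      refine ⟨0, ⊤, ?_, by simp, by simp⟩
      have h0 : A 0 = Set.univ := by
        rw [← hA]
        ext g
        simp
      rw [h0]
      simp
    by_cases hred : ∃ j, ∀ g ∈ A j, ∃ i, i ≠ j ∧ g ∈ (A i * (A i)⁻¹) * A i
    · obtain ⟨j, hj⟩ := hred
      let A' : Fin n → Set G := fun k =>
        A (j.succAbove k) ∪
          (A j ∩ ((A (j.succAbove k) * (A (j.succAbove k))⁻¹) * A (j.succAbove k)))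
      have hA' : (⋃ k, A' k) = Set.univ := by
        rw [Set.eq_univ_iff_forall]
        intro g
        rw [Set.mem_iUnion]
        obtain ⟨i, hi⟩ := hcov' g
        by_cases hij : i = j
        · subst hij
          obtain ⟨l, hl, hgl⟩ := hj g hi
          obtain ⟨k, rfl⟩ := Fin.exists_succAbove_eq hl
          exact ⟨k, Or.inr ⟨hi, hgl⟩⟩
        · obtain ⟨k, rfl⟩ := Fin.exists_succAbove_eq hij
          exact ⟨k, Or.inl hi⟩
      obtain ⟨k, H, hH, hH0, hHn⟩ := ih A' hA'
      refine ⟨j.succAbove k, H, ?_, hH0, by omega⟩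
      set B := A (j.succAbove k) with hB
      set S := B * B⁻¹ with hS
      set T := A' k * (A' k)⁻¹ with hT
      have hBne : B.Nonempty := by
        by_contra hempty
        rw [Set.not_nonempty_iff_eq_empty] at hempty
        have h1 : A' k = ∅ := by
          show B ∪ (A j ∩ (S * B)) = ∅
          rw [hS, hempty]
          simp
        have h2 : T = ∅ := by rw [hT, h1]; simp
        rw [h2, Set.empty_pow (by positivity)] at hH
        have : (1 : G) ∈ (H : Set G) := H.one_mem
        rw [← hH] at this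
        exact this
      have h1S : (1 : G) ∈ S := one_mem_diff hBne
      have hBA' : B ⊆ A' k := Set.subset_union_left
      have hA'SB : A' k ⊆ S * B := by
        refine Set.union_subset ?_ Set.inter_subset_right
        intro b hb
        exact ⟨1, h1S, b, hb, one_mul b⟩
      have hST : S ⊆ T := Set.mul_subset_mul hBA' (Set.inv_subset_inv.mpr hBA')
      have hTS : T ⊆ S ^ 3 := by
        have h3 : T ⊆ (S * B) * (S * B)⁻¹ := Set.mul_subset_mul hA'SB (Set.inv_subset_inv.mpr hA'SB)
        refine h3.trans ?_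
        have h4 : (S * B) * (S * B)⁻¹ = S ^ 3 := by
          rw [mul_inv_rev, inv_diff, pow_succ, pow_two, ← mul_assoc, mul_assoc S B B⁻¹]
        rw [h4]
      have h1T : (1 : G) ∈ T := hST h1S
      have hTH : T ⊆ (H : Set G) := by
        rw [← hH]
        have h5 : T ^ 1 ⊆ T ^ (4 ^ (n - 1)) := Set.pow_subset_pow_right h1T (Nat.one_le_pow _ _ (by norm_num))
        rwa [pow_one] at h5
      apply Set.Subset.antisymm
      · exact pow_sub_subgroup (hST.trans hTH) _
      · rw [← hH]
        have h6 : T ^ (4 ^ (n - 1)) ⊆ (S ^ 3) ^ (4 ^ (n - 1)) := Set.pow_subset_pow_left hTS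
        refine h6.trans ?_
        rw [← pow_mul]
        refine Set.pow_subset_pow_right h1S ?_
        have h7 : n + 1 - 1 = (n - 1) + 1 := by omega
        rw [h7, pow_succ]
        omega
    · push Not at hred
      choose x hxA hx using hred
      exact irreducible_case (n + 1) A (by omega) hA x hxA (fun j i hij => hx j i hij)

end Pool.Agent.W382.DiffPow
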