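import Pool.Agent.W382.G8b

/-!
W489.S_T8 from W489.S_T2 and W489.S_T3.
-/

set_option autoImplicit false

open Metric Set Topology

namespace Pool.Agent.W382.G8

open H113G W489

variable {m k e : ℕ} {Y : Set (Fin m → ℂ)} {pr : (Fin m → ℂ) → (Fin k → ℂ)}
  {δ : MvPolynomial (Fin k) ℂ}

theorem isOpen_Sp (δ : MvPolynomial (Fin k) ℂ) :
    IsOpen {z : Fin k → ℂ | MvPolynomial.eval z δ ≠ 0} :=
  isOpen_ne_fun (MvPolynomial.continuous_eval δ) continuous_const

theorem locPath_Yo (hC : Cov Y pr δ e) : LocallyPathConnectedSpace (Yo Y pr δ) := by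
  have h1 : LocallyPathConnectedSpace (Sp δ) := (isOpen_Sp δ).locallyPathConnectedSpace
  have h2 : IsLocalHomeomorph (qY Y pr δ) := (isCoveringMap_qY hC).isLocalHomeomorph
  choose f hf _ using h2
  let _ : ChartedSpace (Sp δ) (Yo Y pr δ) :=
    { atlas := Set.univ
      chartAt := f
      mem_chart_source := hf
      chart_mem_atlas := fun _ => Set.mem_univ _ }
  exact ChartedSpace.locallyPathConnectedSpace (Sp δ) (Yo Y pr δ)

/-- translation of the logarithm -/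
noncomputable def shift (Y : Set (Fin m → ℂ)) (pr : (Fin m → ℂ) → (Fin k → ℂ))
    (δ : MvPolynomial (Fin k) ℂ) (g : (Fin m → ℂ) → ℂ) (b : ℤ) (w : Wg Y pr δ g) : Wg Y pr δ g :=
  ⟨(w.1.1, w.1.2 + b * (2 * Real.pi * Complex.I)), w.2.1, w.2.2.1, by
    show Complex.exp (w.1.2 + b * (2 * Real.pi * Complex.I)) = g w.1.1
    rw [Complex.exp_add, Complex.exp_int_mul_two_pi_mul_I, mul_one]
    exact w.2.2.2⟩

theorem continuous_shift (g : (Fin m → ℂ) → ℂ) (b : ℤ) : Continuous (shift Y pr δ g b) := by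
  refine Continuous.subtype_mk ?_ _
  exact (continuous_fst.comp continuous_subtype_val).prodMk
    ((continuous_snd.comp continuous_subtype_val).add continuous_const)

theorem T8 (h2 : S_T2) (h3 : S_T3) : S_T8 := by
  intro m k e Y pr δ hC hconn
  have he : 0 < e := by
    rcases Nat.eq_zero_or_pos e with he | he
    · exfalso
      obtain ⟨y, hy⟩ := hconn.nonempty
      obtain ⟨r, hr, s, hs, hsz⟩ := hC.sections (pr y) hy.2
      have h : y ∈ {y' | y' ∈ Y ∧ pr y' = pr y} := ⟨hy.1, rfl⟩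
      rw [(hsz _ (mem_ball_self hr)).2.2] at h
      obtain ⟨i, hi⟩ := h
      subst he
      exact i.elim0
    · exact he
  obtain ⟨D, hD0, hD⟩ := h2 k δ hC.base
  have hδ0 : δ ≠ 0 := by
    rintro rfl
    exact hC.base (map_zero _)
  obtain ⟨v, hv⟩ : ∃ v : Fin k → ℂ, MvPolynomial.eval v (D * δ) ≠ 0 := by
    by_contra hcon
    push Not at hcon
    exact mul_ne_zero hD0 hδ0 (MvPolynomial.funext (fun v => by rw [hcon v, map_zero]))
  rw [map_mul] at hv
  have hvD : MvPolynomial.eval v D ≠ 0 := left_ne_zero_of_mul hv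
  have hvδ : MvPolynomial.eval v δ ≠ 0 := right_ne_zero_of_mul hv
  refine ⟨v, fun g hg hg0 hl => ?_⟩
  obtain ⟨l, hl, hle⟩ := hl
  have hconn' : ConnectedSpace (Yo Y pr δ) := isConnected_iff_connectedSpace.mp hconn
  have hlp : LocallyPathConnectedSpace (Yo Y pr δ) := locPath_Yo hC
  have hpc : PathConnectedSpace (Yo Y pr δ) := pathConnectedSpace_iff_connectedSpace.mpr hconn'
  -- points over a given point
  have hpt : ∀ z : Fin k → ℂ, MvPolynomial.eval z δ ≠ 0 → ∃ y : Yo Y pr δ, pr y.1 = z := by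
    intro z hz
    obtain ⟨r, hr, s, hsc, hsY, hδ, hinj, idx, hidxc, hidx1, hidx2⟩ := exists_local hC he z hz
    have := hsY ⟨0, he⟩ z (mem_ball_self hr)
    exact ⟨⟨s ⟨0, he⟩ z, this.1, by rw [this.2]; exact hz⟩, this.2⟩
  obtain ⟨y₀, hy₀⟩ := hpt 0 hC.base
  obtain ⟨y₁, hy₁⟩ := hpt v hvδ
  have hy₀L : y₀.1 ∈ LineP Y pr δ v := ⟨y₀.2.1, 0, by rw [hy₀, zero_smul], by
    rw [zero_smul]; exact hC.base⟩
  set h₀ : ℂ := l y₀.1 with hh₀
  have hexp₀ : Complex.exp h₀ = g y₀.1 := hle _ hy₀L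
  have cov := isCoveringMap_qW hC he g hg hg0
  let w₀ : Wg Y pr δ g := ⟨(y₀.1, h₀), y₀.2.1, y₀.2.2, hexp₀⟩
  -- over `v` the logarithm is the given one
  have K : ∀ w : Wg Y pr δ g, w ∈ connectedComponent w₀ → pr w.1.1 = v → w.1.2 = l w.1.1 := by
    intro w hw hwv
    have hE := h3 k δ D hC.base hD0 hD (Wg Y pr δ g) (qW Y pr δ g) cov w₀ hy₀ w hw (by
      show MvPolynomial.eval (pr w.1.1) D ≠ 0
      rw [hwv]; exact hvD)
    obtain ⟨c, ⟨hc0, hc1, hcδ⟩, Γ, hΓ0, hΓ1, hΓ⟩ := hE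
    have hΓ' : ∀ τ, pr (Γ τ).1.1 = c τ • v := by
      intro τ
      have h5 : pr (Γ τ).1.1 = c τ • pr w.1.1 := hΓ τ
      rw [h5, hwv]
    have hΓL : ∀ τ, (Γ τ).1.1 ∈ LineP Y pr δ v := by
      intro τ
      refine ⟨(Γ τ).2.1, c τ, hΓ' τ, ?_⟩
      have h6 : MvPolynomial.eval (c τ • pr w.1.1) δ ≠ 0 := hcδ τ
      rw [hwv] at h6
      exact h6
    have hc1 : Continuous fun τ => (Γ τ).1.1 :=
      continuous_fst.comp (continuous_subtype_val.comp Γ.continuous)
    have hg1 : Continuous fun τ => (Γ τ).1.2 :=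
      continuous_snd.comp (continuous_subtype_val.comp Γ.continuous)
    have hg2 : Continuous fun τ => l (Γ τ).1.1 := hl.comp_continuous hc1 hΓL
    have heq := Complex.isCoveringMap_exp.eq_of_comp_eq hg1 hg2 (by
      funext τ
      refine Subtype.ext ?_
      show Complex.exp ((Γ τ).1.2) = Complex.exp (l (Γ τ).1.1)
      rw [hle _ (hΓL τ)]
      exact (Γ τ).2.2.2) 0 (by
      show (Γ 0).1.2 = l (Γ 0).1.1
      rw [hΓ0])
    have h7 : (Γ 1).1.2 = l (Γ 1).1.1 := congrFun heq 1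
    rw [hΓ1] at h7
    exact h7
  -- paths
  have P : ∀ (γ : C(unitInterval, Yo Y pr δ)) (Γ : C(unitInterval, ℂ)) , γ 0 = y₀ → Γ 0 = h₀ →
      ∀ hex : ∀ τ, Complex.exp (Γ τ) = g (γ τ).1,
      (⟨((γ 1).1, Γ 1), (γ 1).2.1, (γ 1).2.2, hex 1⟩ : Wg Y pr δ g) ∈ connectedComponent w₀ := by
    intro γ Γ hγ hΓ hex
    let Δ : unitInterval → Wg Y pr δ g := fun τ => ⟨((γ τ).1, Γ τ), (γ τ).2.1, (γ τ).2.2, hex τ⟩
    have hΔ : Continuous Δ := by
      refine Continuous.subtype_mk ?_ _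
      exact (continuous_subtype_val.comp γ.continuous).prodMk Γ.continuous
    have hpre : IsPreconnected (Set.range Δ) := isPreconnected_range hΔ
    refine hpre.subset_connectedComponent ?_ ⟨1, rfl⟩
    refine ⟨0, ?_⟩
    refine Subtype.ext (Prod.ext ?_ ?_)
    · show (γ 0).1 = y₀.1
      rw [hγ]
    · exact hΓ
  let f : C(Yo Y pr δ, {z : ℂ // z ≠ 0}) := ⟨fun y => ⟨g y.1, hg0 _ y.2⟩, by
    refine Continuous.subtype_mk ?_ _
    exact hg.comp_continuous continuous_subtype_val (fun y => y.2)⟩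
  have ex : ∀ γ : C(unitInterval, Yo Y pr δ), γ 0 = y₀ → ∃ Γ : C(unitInterval, ℂ), Γ 0 = h₀ ∧
      (fun z : ℂ ↦ (⟨_, z.exp_ne_zero⟩ : {z : ℂ // z ≠ 0})) ∘ Γ = f.comp γ := by
    intro γ hγ
    obtain ⟨Γ, h4, h5⟩ := Complex.isCoveringMap_exp.exists_path_lifts (f.comp γ) h₀ (by
      refine Subtype.ext ?_
      show g (γ 0).1 = Complex.exp h₀
      rw [hγ, hexp₀])
    exact ⟨Γ, h5, h4⟩
  have hexl : ∀ (γ : C(unitInterval, Yo Y pr δ)) (Γ : C(unitInterval, ℂ)),
      (fun z : ℂ ↦ (⟨_, z.exp_ne_zero⟩ : {z : ℂ // z ≠ 0})) ∘ Γ = f.comp γ →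
      ∀ τ, Complex.exp (Γ τ) = g (γ τ).1 := by
    intro γ Γ h τ
    exact congrArg Subtype.val (congrFun h τ)
  -- a point of the component over `v`
  obtain ⟨w₁, hw₁, hw₁v⟩ : ∃ w₁ : Wg Y pr δ g, w₁ ∈ connectedComponent w₀ ∧ pr w₁.1.1 = v := by
    let γ : Path y₀ y₁ := PathConnectedSpace.somePath y₀ y₁
    obtain ⟨Γ, hΓ0, hΓ⟩ := ex γ.toContinuousMap γ.source
    refine ⟨_, P γ.toContinuousMap Γ γ.source hΓ0 (hexl _ _ hΓ), ?_⟩
    show pr (γ 1).1 = v
    rw [γ.target, hy₁]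
  have B : ∀ (w : Wg Y pr δ g) (b : ℤ), w ∈ connectedComponent w₀ →
      shift Y pr δ g b w ∈ connectedComponent w₀ → b = 0 := by
    intro w b hw hw'
    have h4 : shift Y pr δ g b w ∈ connectedComponent (shift Y pr δ g b w₀) :=
      (continuous_shift g b).mapsTo_connectedComponent w₀ hw
    have h5 : connectedComponent (shift Y pr δ g b w₀) = connectedComponent w₀ := by
      rw [connectedComponent_eq h4, connectedComponent_eq hw']
    have h6 : shift Y pr δ g b w₁ ∈ connectedComponent w₀ := by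
      rw [← h5]
      exact (continuous_shift g b).mapsTo_connectedComponent w₀ hw₁
    have h7 : w₁.1.2 = l w₁.1.1 := K w₁ hw₁ hw₁v
    have h8 : w₁.1.2 + b * (2 * Real.pi * Complex.I) = l w₁.1.1 := K _ h6 hw₁v
    rw [← h7] at h8
    have h9 : (b : ℂ) * (2 * Real.pi * Complex.I) = 0 := by
      simpa using h8
    rcases mul_eq_zero.mp h9 with h10 | h10
    · exact_mod_cast h10
    · exact absurd h10 two_pi_I_ne
  obtain ⟨F, ⟨hF0, hF⟩, -⟩ :=
    Complex.isCoveringMap_exp.isLocalHomeomorph.existsUnique_continuousMap_lifts f y₀ h₀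
      (Subtype.ext hexp₀) ex (by
        intro γ γ' Γ Γ' hγ hγ' hΓ hΓ' hl1 hl2 h11
        have e1 := hexl _ _ hl1
        have e2 := hexl _ _ hl2
        have p1 := P γ Γ hγ hΓ e1
        have p2 := P γ' Γ' hγ' hΓ' e2
        obtain ⟨b, hb⟩ := Complex.exp_eq_exp_iff_exists_int.mp
          (show Complex.exp (Γ' 1) = Complex.exp (Γ 1) by rw [e1, e2, h11])
        have h12 : b = 0 := by
          refine B _ b p1 ?_
          convert p2 using 1
          refine Subtype.ext (Prod.ext ?_ ?_)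
          · show (γ 1).1 = (γ' 1).1
            rw [h11]
          · exact hb.symm
        rw [hb, h12]
        simp)
  classical
  let H : (Fin m → ℂ) → ℂ := fun y =>
    if hy : y ∈ Y ∧ MvPolynomial.eval (pr y) δ ≠ 0 then F ⟨y, hy⟩ else 0
  have hH : ∀ y (hy : y ∈ Y ∧ MvPolynomial.eval (pr y) δ ≠ 0), H y = F ⟨y, hy⟩ :=
    fun y hy => dif_pos hy
  refine ⟨H, ?_, ?_⟩
  · rw [continuousOn_iff_continuous_domRestrict]
    exact F.continuous.congr (fun y => (hH y.1 y.2).symm)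
  · intro y hy
    rw [hH y hy]
    exact congrArg Subtype.val (congrFun hF ⟨y, hy⟩)

end Pool.Agent.W382.G8
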