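import Pool.Agent.W489.Stubs

/-!
Covering maps given by local sections; used for W489.S_T8.
-/

set_option autoImplicit false

open Metric Set Topology

namespace Pool.Agent.W382.G8

/-- evenly covered from sections and an index function -/
theorem evenly_of_sections {E X I : Type*} [TopologicalSpace E] [TopologicalSpace X]
    [TopologicalSpace I] [DiscreteTopology I] (f : E → X) (hf : Continuous f) (x : X) (U : Set X)
    (hU : IsOpen U) (hx : x ∈ U) (σ : I → U → E) (hσ : ∀ i, Continuous (σ i))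
    (hsec : ∀ i, ∀ u : U, f (σ i u) = u) (idx : f ⁻¹' U → I) (hidx : Continuous idx)
    (h1 : ∀ e : f ⁻¹' U, σ (idx e) ⟨f e, e.2⟩ = e)
    (h2 : ∀ i, ∀ u : U, ∀ e : f ⁻¹' U, e.1 = σ i u → idx e = i) :
    IsEvenlyCovered f x I := by
  refine ⟨inferInstance, U, hx, hU, hU.preimage hf, ?_, ?_⟩
  · exact
    { toFun := fun e => (⟨f e.1, e.2⟩, idx e)
      invFun := fun p => ⟨σ p.2 p.1, by
        show f (σ p.2 p.1) ∈ U
        rw [hsec]; exact p.1.2⟩
      left_inv := fun e => Subtype.ext (h1 e)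
      right_inv := fun p => Prod.ext (Subtype.ext (hsec _ _)) (h2 _ _ _ rfl)
      continuous_toFun := by
        refine Continuous.prodMk ?_ hidx
        exact Continuous.subtype_mk (hf.comp continuous_subtype_val) _
      continuous_invFun := by
        refine Continuous.subtype_mk ?_ _
        rw [continuous_iff_continuousAt]
        rintro ⟨u, i⟩
        have hloc : (fun p : U × I => σ p.2 p.1) =ᶠ[𝓝 (u, i)]
            (fun p : U × I => σ i p.1) := by
          have : {p : U × I | p.2 = i} ∈ 𝓝 ((u, i) : U × I) := by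
            refine IsOpen.mem_nhds ?_ rfl
            exact (isOpen_discrete {i}).preimage continuous_snd
          filter_upwards [this] with p hp
          rw [hp]
        refine ContinuousAt.congr ?_ hloc.symm
        exact ((hσ i).comp continuous_fst).continuousAt }
  · intro e
    rfl

open H113G W489

variable {m k e : ℕ} {Y : Set (Fin m → ℂ)} {pr : (Fin m → ℂ) → (Fin k → ℂ)}
  {δ : MvPolynomial (Fin k) ℂ}

theorem continuous_qY (hC : Cov Y pr δ e) : Continuous (qY Y pr δ) :=
  Continuous.subtype_mk (hC.diff.continuous.comp continuous_subtype_val) _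

/-- local sections of `Yo` over a ball, with continuous index -/
theorem exists_local (hC : Cov Y pr δ e) (he : 0 < e) (z : Fin k → ℂ)
    (hz : MvPolynomial.eval z δ ≠ 0) :
    ∃ r : ℝ, 0 < r ∧ ∃ s : Fin e → (Fin k → ℂ) → (Fin m → ℂ),
      (∀ i, ContinuousOn (s i) (ball z r)) ∧
      (∀ i, ∀ u ∈ ball z r, s i u ∈ Y ∧ pr (s i u) = u) ∧
      (∀ u ∈ ball z r, MvPolynomial.eval u δ ≠ 0) ∧
      (∀ u ∈ ball z r, Function.Injective (fun i => s i u)) ∧
      ∃ idx : (Fin m → ℂ) → Fin e,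
        ContinuousOn idx {y | y ∈ Y ∧ pr y ∈ ball z r} ∧
        (∀ y ∈ Y, pr y ∈ ball z r → s (idx y) (pr y) = y) ∧
        (∀ y ∈ Y, pr y ∈ ball z r → ∀ i, s i (pr y) = y → idx y = i) := by
  obtain ⟨r, hr, s, hs, hsz⟩ := hC.sections z hz
  have hmem : ∀ i, ∀ u ∈ ball z r, s i u ∈ Y ∧ pr (s i u) = u := by
    intro i u hu
    have h : s i u ∈ Set.range (fun i => s i u) := ⟨i, rfl⟩
    rw [← (hsz u hu).2.2] at h
    exact h
  refine ⟨r, hr, s, fun i => (hs i).continuousOn, hmem, fun u hu => (hsz u hu).1,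
    fun u hu => (hsz u hu).2.1, ?_⟩
  have key : ∀ y : Fin m → ℂ, ∃ i : Fin e, (y ∈ Y ∧ pr y ∈ ball z r) → s i (pr y) = y := by
    intro y
    by_cases hy : y ∈ Y ∧ pr y ∈ ball z r
    · have h : y ∈ {y' | y' ∈ Y ∧ pr y' = pr y} := ⟨hy.1, rfl⟩
      rw [(hsz _ hy.2).2.2] at h
      obtain ⟨i, hi⟩ := h
      exact ⟨i, fun _ => hi⟩
    · exact ⟨⟨0, he⟩, fun h => absurd h hy⟩
  choose idx hidx using key
  have huniq : ∀ y ∈ Y, pr y ∈ ball z r → ∀ i, s i (pr y) = y → idx y = i := by
    intro y hy hpy i hi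
    apply (hsz _ hpy).2.1
    show s (idx y) (pr y) = s i (pr y)
    rw [hi, hidx y ⟨hy, hpy⟩]
  refine ⟨idx, ?_, fun y hy hpy => hidx y ⟨hy, hpy⟩, huniq⟩
  rw [continuousOn_iff_continuous_domRestrict]
  have hcl : ∀ i, IsClosed {a : {y | y ∈ Y ∧ pr y ∈ ball z r} | idx a.1 = i} := by
    intro i
    have heq : {a : {y | y ∈ Y ∧ pr y ∈ ball z r} | idx a.1 = i} =
        {a : {y | y ∈ Y ∧ pr y ∈ ball z r} | s i (pr a.1) = a.1} := by
      ext a
      constructor
      · intro h
        show s i (pr a.1) = a.1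
        rw [← (show idx a.1 = i from h)]
        exact hidx a.1 a.2
      · intro h
        exact huniq a.1 a.2.1 a.2.2 i h
    rw [heq]
    refine isClosed_eq ?_ continuous_subtype_val
    have h1 : Continuous fun a : {y | y ∈ Y ∧ pr y ∈ ball z r} => pr a.1 :=
      hC.diff.continuous.comp continuous_subtype_val
    exact (hs i).continuousOn.comp_continuous h1 (fun a => a.2.2)
  rw [continuous_iff_isClosed]
  intro T _
  have : ({y | y ∈ Y ∧ pr y ∈ ball z r}.domRestrict idx) ⁻¹' T =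
      ⋃ i ∈ T, {a : {y | y ∈ Y ∧ pr y ∈ ball z r} | idx a.1 = i} := by
    ext a
    simp
  rw [this]
  exact Set.Finite.isClosed_biUnion (Set.toFinite T) (fun i _ => hcl i)

theorem isCoveringMap_qY (hC : Cov Y pr δ e) : IsCoveringMap (qY Y pr δ) := by
  rcases Nat.eq_zero_or_pos e with he | he
  · have : IsEmpty (Yo Y pr δ) := by
      refine ⟨fun y => ?_⟩
      obtain ⟨r, hr, s, hs, hsz⟩ := hC.sections (pr y.1) y.2.2
      have h : y.1 ∈ {y' | y' ∈ Y ∧ pr y' = pr y.1} := ⟨y.2.1, rfl⟩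
      rw [(hsz _ (mem_ball_self hr)).2.2] at h
      obtain ⟨i, hi⟩ := h
      subst he
      exact i.elim0
    exact IsCoveringMap.of_isEmpty _
  intro z
  obtain ⟨r, hr, s, hsc, hsY, hδ, hinj, idx, hidxc, hidx1, hidx2⟩ := exists_local hC he z.1 z.2
  refine IsEvenlyCovered.to_isEvenlyCovered_preimage (I := Fin e) ?_
  refine evenly_of_sections (qY Y pr δ) (continuous_qY hC) z {u : Sp δ | u.1 ∈ ball z.1 r}
    (isOpen_ball.preimage continuous_subtype_val) (mem_ball_self hr)
    (fun i u => ⟨s i u.1.1, (hsY i _ u.2).1, by rw [(hsY i _ u.2).2]; exact u.1.2⟩)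
    ?_ ?_ (fun y => idx y.1.1) ?_ ?_ ?_
  · intro i
    refine Continuous.subtype_mk ?_ _
    exact (hsc i).comp_continuous (continuous_subtype_val.comp continuous_subtype_val)
      (fun u => u.2)
  · intro i u
    exact Subtype.ext (hsY i _ u.2).2
  · exact hidxc.comp_continuous (continuous_subtype_val.comp continuous_subtype_val)
      (fun y => ⟨y.1.2.1, y.2⟩)
  · intro y
    exact Subtype.ext (hidx1 y.1.1 y.1.2.1 y.2)
  · intro i u y hy
    refine hidx2 _ y.1.2.1 y.2 i ?_
    have h1 : y.1.1 = s i u.1.1 := congrArg Subtype.val hy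
    rw [h1, (hsY i _ u.2).2]

end Pool.Agent.W382.G8
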