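import Pool.Agent.W382.G8a

/-!
The covering `qW` of `Sp δ` by pairs (point, logarithm).
-/

set_option autoImplicit false

open Metric Set Topology

namespace Pool.Agent.W382.G8

open H113G W489

variable {m k e : ℕ} {Y : Set (Fin m → ℂ)} {pr : (Fin m → ℂ) → (Fin k → ℂ)}
  {δ : MvPolynomial (Fin k) ℂ}

theorem exists_log_ball {k : ℕ} (z : Fin k → ℂ) (r : ℝ) (hr : 0 < r) (g : (Fin k → ℂ) → ℂ)
    (hg : ContinuousOn g (ball z r)) (hg0 : ∀ u ∈ ball z r, g u ≠ 0) :
    ∃ h : (Fin k → ℂ) → ℂ, ContinuousOn h (ball z r) ∧ ∀ u ∈ ball z r, Complex.exp (h u) = g u := by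
  have h1 : IsSimplyConnected (ball z r) := by
    have := contractibleSpace_ball (x := z) hr
    show SimplyConnectedSpace (ball z r)
    infer_instance
  obtain ⟨f, hf, hfe⟩ := Complex.exists_continuousOn_eqOn_exp_comp h1 isOpen_ball hg
    (by rintro ⟨u, hu, h⟩; exact hg0 u hu h)
  exact ⟨f, hf, fun u hu => hfe hu⟩

theorem continuous_qW (hC : Cov Y pr δ e) (g : (Fin m → ℂ) → ℂ) : Continuous (qW Y pr δ g) :=
  Continuous.subtype_mk
    (hC.diff.continuous.comp (continuous_fst.comp continuous_subtype_val)) _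

theorem two_pi_I_ne : (2 * Real.pi * Complex.I : ℂ) ≠ 0 := Complex.two_pi_I_ne_zero

theorem isCoveringMap_qW (hC : Cov Y pr δ e) (he : 0 < e) (g : (Fin m → ℂ) → ℂ)
    (hg : ContinuousOn g (OpenP Y pr δ)) (hg0 : ∀ y ∈ OpenP Y pr δ, g y ≠ 0) :
    IsCoveringMap (qW Y pr δ g) := by
  intro z
  obtain ⟨r, hr, s, hsc, hsY, hδ, hinj, idx, hidxc, hidx1, hidx2⟩ := exists_local hC he z.1 z.2
  have hsO : ∀ i, ∀ u ∈ ball z.1 r, s i u ∈ OpenP Y pr δ := by
    intro i u hu
    refine ⟨(hsY i u hu).1, ?_⟩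
    rw [(hsY i u hu).2]
    exact hδ u hu
  have hlog : ∀ i, ∃ h : (Fin k → ℂ) → ℂ, ContinuousOn h (ball z.1 r) ∧
      ∀ u ∈ ball z.1 r, Complex.exp (h u) = g (s i u) := by
    intro i
    exact exists_log_ball z.1 r hr (fun u => g (s i u)) (hg.comp (hsc i) (fun u hu => hsO i u hu))
      (fun u hu => hg0 _ (hsO i u hu))
  choose L hLc hLe using hlog
  refine IsEvenlyCovered.to_isEvenlyCovered_preimage (I := Fin e × ℤ) ?_
  set U : Set (Sp δ) := {u : Sp δ | u.1 ∈ ball z.1 r} with hU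
  -- the difference of logarithms
  have hint : ∀ w : (qW Y pr δ g) ⁻¹' U, ∃ n : ℤ,
      w.1.1.2 = L (idx w.1.1.1) (pr w.1.1.1) + n * (2 * Real.pi * Complex.I) := by
    intro w
    rw [← Complex.exp_eq_exp_iff_exists_int, w.1.2.2.2, hLe _ (pr w.1.1.1) w.2]
    congr 1
    exact (hidx1 w.1.1.1 w.1.2.1 w.2).symm
  choose n hn using hint
  have hidxc' : Continuous (fun w : (qW Y pr δ g) ⁻¹' U => idx w.1.1.1) :=
    hidxc.comp_continuous
      (continuous_fst.comp (continuous_subtype_val.comp continuous_subtype_val))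
      (fun y => ⟨y.1.2.1, y.2⟩)
  have hLc' : Continuous (fun w : (qW Y pr δ g) ⁻¹' U => L (idx w.1.1.1) (pr w.1.1.1)) := by
    rw [continuous_iff_continuousAt]
    intro w₀
    have hloc : (fun w : (qW Y pr δ g) ⁻¹' U => L (idx w.1.1.1) (pr w.1.1.1)) =ᶠ[𝓝 w₀]
        (fun w : (qW Y pr δ g) ⁻¹' U => L (idx w₀.1.1.1) (pr w.1.1.1)) := by
      have : {w : (qW Y pr δ g) ⁻¹' U | idx w.1.1.1 = idx w₀.1.1.1} ∈ 𝓝 w₀ := by
        refine IsOpen.mem_nhds ?_ rfl
        exact (isOpen_discrete {idx w₀.1.1.1}).preimage hidxc'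
      filter_upwards [this] with w hw
      rw [hw]
    refine ContinuousAt.congr ?_ hloc.symm
    have h2 : Continuous (fun w : (qW Y pr δ g) ⁻¹' U => pr w.1.1.1) :=
      hC.diff.continuous.comp
        (continuous_fst.comp (continuous_subtype_val.comp continuous_subtype_val))
    exact ((hLc (idx w₀.1.1.1)).comp_continuous h2 (fun w => w.2)).continuousAt
  have hnc : Continuous n := by
    rw [Int.isClosedEmbedding_coe_real.isInducing.continuous_iff]
    have h3 : (fun w => ((n w : ℤ) : ℝ)) = fun w : (qW Y pr δ g) ⁻¹' U =>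
        ((w.1.1.2 - L (idx w.1.1.1) (pr w.1.1.1)) / (2 * Real.pi * Complex.I)).re := by
      funext w
      have h4 : (w.1.1.2 - L (idx w.1.1.1) (pr w.1.1.1)) / (2 * Real.pi * Complex.I) = (n w : ℂ) := by
        rw [hn w, add_sub_cancel_left, mul_div_assoc, div_self two_pi_I_ne, mul_one]
      rw [h4, Complex.intCast_re]
    show Continuous (fun w => ((n w : ℤ) : ℝ))
    rw [h3]
    refine Complex.continuous_re.comp ?_
    refine Continuous.div_const ?_ _
    exact (continuous_snd.comp (continuous_subtype_val.comp continuous_subtype_val)).sub hLc'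
  refine evenly_of_sections (qW Y pr δ g) (continuous_qW hC g) z U
    (isOpen_ball.preimage continuous_subtype_val) (mem_ball_self hr)
    (fun i u => ⟨(s i.1 u.1.1, L i.1 u.1.1 + i.2 * (2 * Real.pi * Complex.I)),
      (hsY i.1 _ u.2).1, by rw [(hsY i.1 _ u.2).2]; exact u.1.2, by
        show Complex.exp (L i.1 u.1.1 + i.2 * (2 * Real.pi * Complex.I)) = g (s i.1 u.1.1)
        rw [Complex.exp_add, Complex.exp_int_mul_two_pi_mul_I, mul_one]
        exact hLe _ _ u.2⟩)
    ?_ ?_ (fun w => (idx w.1.1.1, n w)) (hidxc'.prodMk hnc) ?_ ?_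
  · rintro ⟨i, j⟩
    refine Continuous.subtype_mk ?_ _
    refine Continuous.prodMk ?_ ?_
    · exact (hsc i).comp_continuous (continuous_subtype_val.comp continuous_subtype_val)
        (fun u => u.2)
    · refine Continuous.add ?_ continuous_const
      exact (hLc i).comp_continuous (continuous_subtype_val.comp continuous_subtype_val)
        (fun u => u.2)
  · rintro ⟨i, j⟩ u
    exact Subtype.ext (hsY i _ u.2).2
  · intro w
    refine Subtype.ext (Prod.ext ?_ ?_)
    · exact hidx1 w.1.1.1 w.1.2.1 w.2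
    · exact (hn w).symm
  · rintro ⟨i, j⟩ u w hw
    have h1 : w.1.1.1 = s i u.1.1 := congrArg (fun x => x.1.1) hw
    have h2 : w.1.1.2 = L i u.1.1 + j * (2 * Real.pi * Complex.I) := congrArg (fun x => x.1.2) hw
    have h3 : pr w.1.1.1 = u.1.1 := by rw [h1, (hsY i _ u.2).2]
    have h4 : idx w.1.1.1 = i := hidx2 _ w.1.2.1 w.2 i (by rw [h3, h1])
    refine Prod.ext h4 ?_
    have h5 := hn w
    rw [h4, h3, h2] at h5
    have h6 : (j : ℂ) = (n w : ℂ) := mul_right_cancel₀ two_pi_I_ne (add_left_cancel h5)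
    exact_mod_cast h6.symm

end Pool.Agent.W382.G8
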